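import Pool.Agent.Helper79_MT4.Stmt

/-! CUR and GRP. -/

set_option autoImplicit false

namespace Pool.Agent.MT4

open Module LinearMap Polynomial

universe u v w

theorem cur : CurStmt.{u, v} := by
  intro K V _ _ _
  have mono : ∀ (k : ℕ) (a : End K V), IsCurve (fun t : K => t ^ k • a) := fun k a =>
    Submodule.subset_span ⟨k, a, rfl⟩
  have hconst : ∀ a : End K V, IsCurve (fun _ : K => a) := by
    intro a
    have := mono 0 a
    simpa using this
  have hadd : ∀ p q : K → End K V, IsCurve p → IsCurve q → IsCurve (fun s => p s + q s) :=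
    fun p q hp hq => Submodule.add_mem _ hp hq
  have hsub : ∀ p q : K → End K V, IsCurve p → IsCurve q → IsCurve (fun s => p s - q s) :=
    fun p q hp hq => Submodule.sub_mem _ hp hq
  have hsmul : ∀ (c : K) (p : K → End K V), IsCurve p → IsCurve (fun s => c • p s) :=
    fun c p hp => Submodule.smul_mem _ c hp
  have hmul : ∀ p q : K → End K V, IsCurve p → IsCurve q → IsCurve (fun s => p s * q s) := by
    intro p q hp hq
    unfold IsCurve at hp
    induction hp using Submodule.span_induction with
    | mem x hx =>
      obtain ⟨k, a, rfl⟩ := hx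
      unfold IsCurve at hq
      induction hq using Submodule.span_induction with
      | mem y hy =>
        obtain ⟨l, b, rfl⟩ := hy
        have h := mono (k + l) (a * b)
        have e : (fun s : K => s ^ k • a * s ^ l • b) = fun s => s ^ (k + l) • (a * b) := by
          funext s
          rw [smul_mul_smul_comm, pow_add]
        rw [e]
        exact h
      | zero =>
        have h := hconst 0
        have e : (fun s : K => s ^ k • a * (0 : K → End K V) s) = fun _ => 0 := by
          funext s
          simp
        rw [e]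
        exact h
      | add y z _ _ hy hz =>
        have h := hadd _ _ hy hz
        have e : (fun s : K => s ^ k • a * (y + z) s) =
            fun s => s ^ k • a * y s + s ^ k • a * z s := by
          funext s
          rw [Pi.add_apply, mul_add]
        rw [e]
        exact h
      | smul c y _ hy =>
        have h := hsmul c _ hy
        have e : (fun s : K => s ^ k • a * (c • y) s) = fun s => c • (s ^ k • a * y s) := by
          funext s
          rw [Pi.smul_apply, mul_smul_comm]
        rw [e]
        exact h
    | zero =>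
      have h := hconst 0
      have e : (fun s : K => (0 : K → End K V) s * q s) = fun _ => 0 := by
        funext s
        simp
      rw [e]
      exact h
    | add y z _ _ hy hz =>
      have h := hadd _ _ hy hz
      have e : (fun s : K => (y + z) s * q s) = fun s => y s * q s + z s * q s := by
        funext s
        rw [Pi.add_apply, add_mul]
      rw [e]
      exact h
    | smul c y _ hy =>
      have h := hsmul c _ hy
      have e : (fun s : K => (c • y) s * q s) = fun s => c • (y s * q s) := by
        funext s
        rw [Pi.smul_apply, smul_mul_assoc]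
      rw [e]
      exact h
  have hev : ∀ (P : K[X]) (a : End K V), IsCurve (fun s : K => P.eval s • a) := by
    intro P a
    induction P using Polynomial.induction_on' with
    | add p q hp hq =>
      have h := hadd _ _ hp hq
      have e : (fun s : K => (p + q).eval s • a) = fun s => p.eval s • a + q.eval s • a := by
        funext s
        rw [eval_add, add_smul]
      rw [e]
      exact h
    | monomial n c =>
      have h := hsmul c _ (mono n a)
      have e : (fun s : K => (monomial n c).eval s • a) = fun s => c • (s ^ n • a) := by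
        funext s
        rw [eval_monomial, mul_smul]
      rw [e]
      exact h
  refine ⟨hconst, hadd, hsub, hmul, ?_, ?_, ?_⟩
  · intro P p hp
    have h := hmul _ _ (hev P 1) hp
    have e : (fun s : K => P.eval s • p s) = fun s => P.eval s • (1 : End K V) * p s := by
      funext s
      rw [smul_mul_assoc, one_mul]
    rw [e]
    exact h
  · intro P p hp
    unfold IsCurve at hp
    induction hp using Submodule.span_induction with
    | mem x hx =>
      obtain ⟨k, a, rfl⟩ := hx
      have h := hev (P ^ k) a
      have e : (fun s : K => (fun t : K => t ^ k • a) (P.eval s)) =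
          fun s => (P ^ k).eval s • a := by
        funext s
        rw [eval_pow]
      rw [e]
      exact h
    | zero => exact hconst 0
    | add y z _ _ hy hz => exact hadd _ _ hy hz
    | smul c y _ hy => exact hsmul c _ hy
  · intro F p hp
    unfold IsCurve at hp
    induction hp using Submodule.span_induction with
    | mem x hx =>
      obtain ⟨k, a, rfl⟩ := hx
      refine ⟨monomial k (F a), fun s => ?_⟩
      rw [eval_monomial, map_smul, smul_eq_mul, mul_comm]
    | zero => exact ⟨0, fun s => by simp⟩
    | add y z _ _ hy hz =>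
      obtain ⟨P, hP⟩ := hy
      obtain ⟨Q, hQ⟩ := hz
      refine ⟨P + Q, fun s => ?_⟩
      rw [Pi.add_apply, map_add, hP, hQ, eval_add]
    | smul c y _ hy =>
      obtain ⟨P, hP⟩ := hy
      refine ⟨C c * P, fun s => ?_⟩
      rw [Pi.smul_apply, map_smul, hP, eval_mul, eval_C, smul_eq_mul]

theorem grp : GrpStmt.{u, v, w} := by
  intro K V ι _ _ _ _ _ ψ e σ g hB
  have hprod : ∀ a b : End K V, Gp e g a b → ∀ c d : End K V, Gp e g c d →
      Gp e g (a * c) (d * b) := by
    intro a b hab
    induction hab with
    | one => intro c d hcd; simpa using hcd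
    | uni M hM t a b _ ih =>
      intro c d hcd
      have h := Gp.uni M hM t _ _ (ih c d hcd)
      rw [mul_assoc, ← mul_assoc d b]
      exact h
    | tor h hh t ht a b _ ih =>
      intro c d hcd
      have h := Gp.tor h hh t ht _ _ (ih c d hcd)
      rw [mul_assoc, ← mul_assoc d b]
      exact h
  have hinv : ∀ a b : End K V, Gp e g a b → Gp e g b a := by
    intro a b hab
    induction hab with
    | one => exact Gp.one
    | uni M hM t a b _ ih =>
      have h := Gp.uni M hM (-t) _ _ Gp.one
      rw [mul_one, one_mul, neg_smul, sub_neg_eq_add, ← sub_eq_add_neg] at h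
      exact hprod _ _ ih _ _ h
    | tor h hh t ht a b _ ih =>
      have h := Gp.tor h hh t⁻¹ (inv_ne_zero ht) _ _ Gp.one
      rw [mul_one, one_mul, inv_inv] at h
      exact hprod _ _ ih _ _ h
  -- the generators
  have hU1 : ∀ M ∈ R0 e g, ∀ t : K, (1 + t • M) * (1 - t • M) = 1 := by
    intro M hM t
    have h := hM.2.1
    rw [add_mul, one_mul, mul_sub, mul_one, smul_mul_smul_comm, h, smul_zero]
    abel
  have hU2 : ∀ M ∈ R0 e g, ∀ t : K, (1 - t • M) * (1 + t • M) = 1 := by
    intro M hM t
    have h := hM.2.1
    rw [sub_mul, one_mul, mul_add, mul_one, smul_mul_smul_comm, h, smul_zero]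
    abel
  have hUc : ∀ M ∈ R0 e g, ∀ (t : K) i, (1 + t • M) * e i = e i * (1 + t • M) := by
    intro M hM t i
    rw [add_mul, mul_add, one_mul, mul_one, smul_mul_assoc, mul_smul_comm, hB.comm M hM.1 i]
  have hUc' : ∀ M ∈ R0 e g, ∀ (t : K) i, (1 - t • M) * e i = e i * (1 - t • M) := by
    intro M hM t i
    rw [sub_mul, mul_sub, one_mul, mul_one, smul_mul_assoc, mul_smul_comm, hB.comm M hM.1 i]
  have h2 : (2 : K) ≠ 0 := two_ne_zero
  have hUg : ∀ M ∈ R0 e g, ∀ (t : K), ∀ X ∈ g, (1 + t • M) * X * (1 - t • M) ∈ g := by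
    intro M hM t X hX
    have h := hM.2.1
    have h3 : M * X - X * M ∈ g := hB.br M hM.1 X hX
    have h4 : M * (M * X - X * M) - (M * X - X * M) * M ∈ g := hB.br M hM.1 _ h3
    have h5 : M * (M * X - X * M) - (M * X - X * M) * M = -((2 : K) • (M * X * M)) := by
      rw [mul_sub, sub_mul, ← mul_assoc, h, zero_mul, mul_assoc X M M, h, mul_zero, ← mul_assoc,
        two_smul]
      abel
    have h6 : (1 + t • M) * X * (1 - t • M) =
        X + t • (M * X - X * M) + (t ^ 2 / 2) • (M * (M * X - X * M) - (M * X - X * M) * M) := by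
      rw [h5, smul_neg, smul_smul, div_mul_cancel₀ _ h2]
      simp only [add_mul, mul_sub, one_mul, mul_one, smul_mul_assoc, mul_smul_comm, smul_sub,
        smul_add, smul_smul]
      rw [pow_two]
      abel
    rw [h6]
    exact g.add_mem (g.add_mem hX (g.smul_mem _ h3)) (g.smul_mem _ h4)
  -- tori
  have hP : ∀ h : End K V, h * h = (1 / 4 : K) • 1 →
      ((1 / 2 : K) • 1 + h) * ((1 / 2 : K) • 1 + h) = (1 / 2 : K) • 1 + h := by
    intro h hh
    simp only [add_mul, mul_add, one_mul, mul_one, smul_mul_assoc, mul_smul_comm, smul_smul, hh]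
    module
  have hQ : ∀ h : End K V, h * h = (1 / 4 : K) • 1 →
      ((1 / 2 : K) • 1 - h) * ((1 / 2 : K) • 1 - h) = (1 / 2 : K) • 1 - h := by
    intro h hh
    have := hP (-h) (by rw [neg_mul_neg, hh])
    simpa [sub_eq_add_neg] using this
  have hPQ : ∀ h : End K V, h * h = (1 / 4 : K) • 1 →
      ((1 / 2 : K) • 1 + h) * ((1 / 2 : K) • 1 - h) = 0 := by
    intro h hh
    simp only [add_mul, mul_sub, one_mul, mul_one, smul_mul_assoc, mul_smul_comm, smul_smul, hh]
    module
  have hQP : ∀ h : End K V, h * h = (1 / 4 : K) • 1 →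
      ((1 / 2 : K) • 1 - h) * ((1 / 2 : K) • 1 + h) = 0 := by
    intro h hh
    have := hPQ (-h) (by rw [neg_mul_neg, hh])
    simpa [sub_eq_add_neg] using this
  have hsum : ∀ h : End K V, ((1 / 2 : K) • 1 + h) + ((1 / 2 : K) • 1 - h) = 1 := by
    intro h
    have : (1 / 2 : K) • (1 : End K V) + (1 / 2 : K) • 1 = 1 := by
      rw [← add_smul]; norm_num
    calc ((1 / 2 : K) • (1 : End K V) + h) + ((1 / 2 : K) • 1 - h)
        = (1 / 2 : K) • (1 : End K V) + (1 / 2 : K) • 1 := by abel
      _ = 1 := this
  have hT1 : ∀ h ∈ Hs e g, ∀ t s : K, t * s = 1 →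
      (((1 / 2 : K) • 1 + h) + t • ((1 / 2 : K) • 1 - h)) *
        (((1 / 2 : K) • 1 + h) + s • ((1 / 2 : K) • 1 - h)) = 1 := by
    intro h hh t s hts
    have a1 := hP h hh.2.1
    have a2 := hQ h hh.2.1
    have a3 := hPQ h hh.2.1
    have a4 := hQP h hh.2.1
    have a5 := hsum h
    generalize (1 / 2 : K) • 1 + h = P at *
    generalize (1 / 2 : K) • 1 - h = Q at *
    rw [add_mul, mul_add, mul_add, a1, mul_smul_comm, a3, smul_mul_assoc, a4,
      smul_mul_smul_comm, a2, hts, one_smul, smul_zero, smul_zero, add_zero, zero_add]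
    exact a5
  have hTc : ∀ h ∈ Hs e g, ∀ (t : K) i,
      (((1 / 2 : K) • 1 + h) + t • ((1 / 2 : K) • 1 - h)) * e i =
        e i * (((1 / 2 : K) • 1 + h) + t • ((1 / 2 : K) • 1 - h)) := by
    intro h hh t i
    simp only [add_mul, mul_add, sub_mul, mul_sub, one_mul, mul_one, smul_mul_assoc,
      mul_smul_comm, hB.comm h hh.1 i]
  have hTg : ∀ h ∈ Hs e g, ∀ t s : K, t * s = 1 → ∀ X ∈ g,
      (((1 / 2 : K) • 1 + h) + t • ((1 / 2 : K) • 1 - h)) * X *
        (((1 / 2 : K) • 1 + h) + s • ((1 / 2 : K) • 1 - h)) ∈ g := by
    intro h hh t s hts X hX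
    obtain ⟨P, hPd⟩ : ∃ P, P = (1 / 2 : K) • 1 + h := ⟨_, rfl⟩
    obtain ⟨Q, hQd⟩ : ∃ Q, Q = (1 / 2 : K) • 1 - h := ⟨_, rfl⟩
    have a1 := hP h hh.2.1
    have a2 := hQ h hh.2.1
    have a3 := hPQ h hh.2.1
    have a4 := hQP h hh.2.1
    have a5 := hsum h
    rw [← hPd] at a1 a3 a4 a5 ⊢
    rw [← hQd] at a2 a3 a4 a5 ⊢
    have hh2 : (2 : K) • h = P - Q := by
      rw [hPd, hQd, two_smul]; abel
    have h3 : h * X - X * h ∈ g := hB.br h hh.1 X hX
    have h4 : h * (h * X - X * h) - (h * X - X * h) * h ∈ g := hB.br h hh.1 _ h3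
    have hhe : h = (1 / 2 : K) • (P - Q) := by
      rw [← hh2, smul_smul]; norm_num
    have hXd : X = P * X * P + P * X * Q + Q * X * P + Q * X * Q := by
      calc X = (P + Q) * X * (P + Q) := by rw [a5, one_mul, mul_one]
        _ = _ := by
          simp only [add_mul, mul_add]
          abel
    have e1 : h * X - X * h = P * X * Q - Q * X * P := by
      have : (2 : K) • (h * X - X * h) = (2 : K) • (P * X * Q - Q * X * P) := by
        rw [smul_sub, ← smul_mul_assoc, ← mul_smul_comm, hh2]
        have b1 : (P - Q) * X = P * X * P + P * X * Q - Q * X * P - Q * X * Q := by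
          calc (P - Q) * X = (P - Q) * X * (P + Q) := by rw [a5, mul_one]
            _ = _ := by simp only [sub_mul, mul_add]; abel
        have b2 : X * (P - Q) = P * X * P + Q * X * P - P * X * Q - Q * X * Q := by
          calc X * (P - Q) = (P + Q) * (X * (P - Q)) := by rw [a5, one_mul]
            _ = _ := by simp only [add_mul, mul_sub, ← mul_assoc]; abel
        rw [b1, b2, two_smul]
        abel
      exact smul_right_injective _ h2 this
    have e2 : h * (h * X - X * h) - (h * X - X * h) * h = P * X * Q + Q * X * P := by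
      rw [e1]
      have : (2 : K) • (h * (P * X * Q - Q * X * P) - (P * X * Q - Q * X * P) * h) =
          (2 : K) • (P * X * Q + Q * X * P) := by
        rw [smul_sub, ← smul_mul_assoc, ← mul_smul_comm, hh2]
        have c1 : P * (P * X * Q) = P * X * Q := by
          rw [← mul_assoc, ← mul_assoc, a1]
        have c2 : P * (Q * X * P) = 0 := by
          rw [← mul_assoc, ← mul_assoc, a3, zero_mul, zero_mul]
        have c3 : Q * (P * X * Q) = 0 := by
          rw [← mul_assoc, ← mul_assoc, a4, zero_mul, zero_mul]
        have c4 : Q * (Q * X * P) = Q * X * P := by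
          rw [← mul_assoc, ← mul_assoc, a2]
        have c5 : P * X * Q * P = 0 := by rw [mul_assoc, a4, mul_zero]
        have c6 : P * X * Q * Q = P * X * Q := by rw [mul_assoc, a2]
        have c7 : Q * X * P * P = Q * X * P := by rw [mul_assoc, a1]
        have c8 : Q * X * P * Q = 0 := by rw [mul_assoc, a3, mul_zero]
        simp only [sub_mul, mul_sub, c1, c2, c3, c4, c5, c6, c7, c8, two_smul]
        abel
      exact smul_right_injective _ h2 this
    have e3 : (P + t • Q) * X * (P + s • Q) =
        X + (((s - t) / 2) • (h * X - X * h)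
          + ((s + t) / 2 - 1) • (h * (h * X - X * h) - (h * X - X * h) * h)) := by
      rw [e2, e1]
      have b3 : (P + t • Q) * X * (P + s • Q) =
          P * X * P + s • (P * X * Q) + t • (Q * X * P) + Q * X * Q := by
        simp only [add_mul, mul_add, smul_mul_assoc, mul_smul_comm, smul_add]
        rw [smul_smul s t, mul_comm s t, hts, one_smul]
        abel
      rw [b3]
      have b4 : X + (((s - t) / 2) • (P * X * Q - Q * X * P)
          + ((s + t) / 2 - 1) • (P * X * Q + Q * X * P)) =
          P * X * P + P * X * Q + Q * X * P + Q * X * Q +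
          (((s - t) / 2) • (P * X * Q - Q * X * P)
          + ((s + t) / 2 - 1) • (P * X * Q + Q * X * P)) := by
        rw [← hXd]
      rw [b4]
      module
    rw [e3]
    exact g.add_mem hX (g.add_mem (g.smul_mem _ h3) (g.smul_mem _ h4))
  -- the first five properties
  have main : ∀ a b : End K V, Gp e g a b →
      a * b = 1 ∧ b * a = 1 ∧ (∀ i, a * e i = e i * a) ∧ (∀ i, b * e i = e i * b) ∧
      (∀ X ∈ g, a * X * b ∈ g) := by
    intro a b hab
    induction hab with
    | one => exact ⟨one_mul _, one_mul _, fun i => by simp, fun i => by simp,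
        fun X hX => by simpa using hX⟩
    | uni M hM t a b _ ih =>
      obtain ⟨i1, i2, i3, i4, i5⟩ := ih
      refine ⟨?_, ?_, ?_, ?_, ?_⟩
      · rw [mul_assoc, ← mul_assoc a b, i1, one_mul, hU1 M hM]
      · rw [mul_assoc, ← mul_assoc (1 - t • M), hU2 M hM, one_mul, i2]
      · intro i
        rw [mul_assoc, i3, ← mul_assoc, hUc M hM, mul_assoc]
      · intro i
        rw [mul_assoc, hUc' M hM, ← mul_assoc, i4, mul_assoc]
      · intro X hX
        have := hUg M hM t _ (i5 X hX)
        simpa only [mul_assoc] using this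
    | tor h hh t ht a b _ ih =>
      obtain ⟨i1, i2, i3, i4, i5⟩ := ih
      refine ⟨?_, ?_, ?_, ?_, ?_⟩
      · rw [mul_assoc, ← mul_assoc a b, i1, one_mul, hT1 h hh _ _ (mul_inv_cancel₀ ht)]
      · rw [mul_assoc, ← mul_assoc _ _ a, hT1 h hh _ _ (inv_mul_cancel₀ ht), one_mul, i2]
      · intro i
        rw [mul_assoc, i3, ← mul_assoc, hTc h hh, mul_assoc]
      · intro i
        rw [mul_assoc, hTc h hh, ← mul_assoc, i4, mul_assoc]
      · intro X hX
        have := hTg h hh t _ (mul_inv_cancel₀ ht) _ (i5 X hX)
        simpa only [mul_assoc] using this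
  intro a b hab
  obtain ⟨i1, i2, i3, i4, i5⟩ := main a b hab
  refine ⟨i1, i2, i3, i4, i5, ?_, hinv a b hab, hprod a b hab⟩
  intro M hM
  obtain ⟨m1, m2, m3⟩ := hM
  refine ⟨i5 M m1, ?_, ?_⟩
  · calc a * M * b * (a * M * b) = a * M * (b * a) * (M * b) := by simp only [mul_assoc]
      _ = a * (M * M) * b := by rw [i2]; simp only [mul_assoc, one_mul]
      _ = 0 := by rw [m2, mul_zero, zero_mul]
  · intro i
    obtain ⟨x, φ, hx, hφ, hxφ⟩ := m3 i
    refine ⟨a x, φ ∘ₗ b, ?_, ?_, ?_⟩
    · intro h0
      apply hx
      have : (b * a) x = 0 := by rw [Module.End.mul_apply, h0, map_zero]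
      rwa [i2, Module.End.one_apply] at this
    · intro h0
      apply hφ
      ext y
      have : φ ((b * a) y) = 0 := by
        rw [Module.End.mul_apply]
        exact LinearMap.congr_fun h0 (a y)
      rwa [i2, Module.End.one_apply] at this
    · calc a * M * b * e i = a * (M * e i) * b := by
            rw [mul_assoc, i4, ← mul_assoc, mul_assoc a M]
        _ = (φ ∘ₗ b).smulRight (a x) := by
            rw [hxφ]
            ext y
            simp [Module.End.mul_apply]

end Pool.Agent.MT4
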