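import Mathlib

/-! Irreducible Lie algebras of unitary type with elements of rank one: definitions and module
statements (squad MT4). -/

set_option autoImplicit false

namespace Pool.Agent.MT4

open Module LinearMap Polynomial

universe u v w

section defs
variable {K : Type u} {V : Type v} [Field K] [AddCommGroup V] [Module K V]

/-- rank one endomorphisms `x ↦ φ(x) w` -/
def RankOne (A : End K V) : Prop :=
  ∃ (x : V) (φ : V →ₗ[K] K), x ≠ 0 ∧ φ ≠ 0 ∧ A = φ.smulRight x

variable {ι : Type w}

/-- the elements `h` of `g` with `h² = 1/4` which are not scalar on any block -/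
def Hs (e : ι → End K V) (g : Submodule K (End K V)) : Set (End K V) :=
  {h | h ∈ g ∧ h * h = (1 / 4 : K) • 1 ∧
    ∀ i, h * e i ≠ (1 / 2 : K) • e i ∧ h * e i ≠ -((1 / 2 : K) • e i)}

/-- the elements of `g` of square zero which are of rank one on every block -/
def R0 (e : ι → End K V) (g : Submodule K (End K V)) : Set (End K V) :=
  {M | M ∈ g ∧ M * M = 0 ∧ ∀ i, RankOne (M * e i)}

/-- Blocks of unitary type: `g` is a Lie algebra of skew endomorphisms commuting with the orthogonal
idempotents `e i`, which are interchanged in pairs by the adjunction for the symplectic form `ψ`, and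
every subspace stable under `Hs e g` contains or misses each block. -/
structure Blk4 (ψ : V →ₗ[K] V →ₗ[K] K) (e : ι → End K V) (σ : ι → ι)
    (g : Submodule K (End K V)) : Prop where
  nψ : ∀ x, (∀ y, ψ x y = 0) → x = 0
  skew : ∀ x y, ψ x y = -ψ y x
  br : ∀ X ∈ g, ∀ Y ∈ g, X * Y - Y * X ∈ g
  sp : ∀ X ∈ g, ∀ x y, ψ (X x) y = -ψ x (X y)
  idem : ∀ i, e i * e i = e i
  orth : ∀ i j, i ≠ j → e i * e j = 0
  one : ∀ x, (∀ i, e i x = 0) → x = 0
  comm : ∀ X ∈ g, ∀ i, X * e i = e i * X
  inv : ∀ i, σ (σ i) = i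
  nfix : ∀ i, σ i ≠ i
  adj : ∀ i x y, ψ (e i x) y = ψ x (e (σ i) y)
  irr : ∀ U : Submodule K V, (∀ h ∈ Hs e g, ∀ x ∈ U, h x ∈ U) →
    ∀ i, (∀ x, e i x ∈ U) ∨ (∀ x ∈ U, e i x = 0)

/-- The group generated by the `1 + t M`, `M ∈ R0`, and by the `P + t Q`, `P = 1/2 + h`,
`Q = 1/2 - h`, `h ∈ Hs`: pairs of an element and its inverse. -/
inductive Gp (e : ι → End K V) (g : Submodule K (End K V)) : End K V → End K V → Prop
  | one : Gp e g 1 1
  | uni (M : End K V) (hM : M ∈ R0 e g) (t : K) (a b : End K V) (h : Gp e g a b) :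
      Gp e g ((1 + t • M) * a) (b * (1 - t • M))
  | tor (h : End K V) (hh : h ∈ Hs e g) (t : K) (ht : t ≠ 0) (a b : End K V) (hab : Gp e g a b) :
      Gp e g ((((1 / 2 : K) • 1 + h) + t • ((1 / 2 : K) • 1 - h)) * a)
        (b * (((1 / 2 : K) • 1 + h) + t⁻¹ • ((1 / 2 : K) • 1 - h)))

/-- the cone over the orbit of `N` -/
def Orb (e : ι → End K V) (g : Submodule K (End K V)) (N : End K V) : Set (End K V) :=
  {y | ∃ (k : K) (a b : End K V), k ≠ 0 ∧ Gp e g a b ∧ y = k • (a * N * b)}

/-- polynomial curves of endomorphisms -/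
def IsCurve (p : K → End K V) : Prop :=
  p ∈ Submodule.span K {f : K → End K V | ∃ (k : ℕ) (a : End K V), f = fun t => t ^ k • a}

/-- functions of three endomorphisms which are polynomial on polynomial curves -/
def PolyOn (Φ : End K V → End K V → End K V → K) : Prop :=
  ∀ p q r : K → End K V, IsCurve p → IsCurve q → IsCurve r →
    ∃ P : K[X], ∀ s, Φ (p s) (q s) (r s) = P.eval s

/-- maps of three endomorphisms which send polynomial curves to polynomial curves -/
def CurveOn (F : End K V → End K V → End K V → End K V) : Prop :=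
  ∀ p q r : K → End K V, IsCurve p → IsCurve q → IsCurve r → IsCurve (fun s => F (p s) (q s) (r s))

/-- the endomorphism `x ↦ ψ(a,x) b + ψ(b,x) a` -/
def rr (ψ : V →ₗ[K] V →ₗ[K] K) (a b : V) : End K V := (ψ a).smulRight b + (ψ b).smulRight a

end defs

end Pool.Agent.MT4
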