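import Pool.Agent.Helper78_MT.Defs3

/-! Abelian varieties with complex multiplication by a field: definitions. -/

set_option autoImplicit false
set_option linter.unusedSectionVars false

namespace Pool.Agent.MT4

open MvPolynomial Matrix Module Pool.Agent.Helper78_MT

variable {n : Type*} [Fintype n] [DecidableEq n]

/-- `e` is a primitive idempotent of the algebra spanned by `D` over `K`. -/
def Primitive (D : Subalgebra ℚ (Matrix n n ℚ)) {K : Type*} [Field K] [CharZero K]
    (e : Matrix n n K) : Prop :=
  e ∈ extension D K ∧ e ≠ 0 ∧ e * e = e ∧ ∀ X ∈ extension D K, ∃ a : K, e * X * e = a • e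

/-- Over `K` the algebra `D` is a product of copies of `K` which are interchanged in pairs by the
adjunction for `E`: this is the case for (products of different) CM fields. -/
def UnitaryType (E : Matrix n n ℚ) (D : Subalgebra ℚ (Matrix n n ℚ)) (K : Type*) [Field K]
    [CharZero K] : Prop :=
  ∃ (r : ℕ) (f : ((Fin r → K) × (Fin r → K)) →ₐ[K] Matrix n n K),
    Function.Injective f ∧ LinearMap.range f.toLinearMap = extension D K ∧
      ∀ x y, (f (x, y))ᵀ * E.map (algebraMap ℚ K) = E.map (algebraMap ℚ K) * f (y, x)

/-- `X` and `Y` are similitudes of `E` with the same factor and, for every primitive idempotent `e` of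
the extension of `D`, they have the same determinant on the image of `e` (for matrices commuting with
`D`). -/
def SameAbelianPart (E : Matrix n n ℚ) (D : Subalgebra ℚ (Matrix n n ℚ)) {K : Type*} [Field K]
    [CharZero K] (X Y : Matrix n n K) : Prop :=
  (∃ c : K, Xᵀ * E.map (algebraMap ℚ K) * X = c • E.map (algebraMap ℚ K) ∧
    Yᵀ * E.map (algebraMap ℚ K) * Y = c • E.map (algebraMap ℚ K)) ∧
  ∀ e, Primitive D e → (X * e + (1 - e)).det = (Y * e + (1 - e)).det

/-- The properties of the representation on the first cohomology of an abelian variety over a number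
field whose algebra of endomorphisms `D` (over the algebraic closure) is a product of CM fields, and
which has a place of semistable reduction where the toric part of the reduction is of rank one over
`D`. -/
structure MotivicCM {R Γ : Type*} [Field R] [CharZero R] [Group Γ] (E : Matrix n n ℚ)
    (J : Matrix n n ℝ) (D : Subalgebra ℚ (Matrix n n ℚ)) (ρ : Γ →* GL n R) (K : Type*) [Field K]
    [CharZero K] [Algebra R K] : Prop where
  /-- a subgroup of finite index maps into the Mumford-Tate group -/
  deligne : ∃ Γ₀ : Subgroup Γ, Γ₀.FiniteIndex ∧ ∀ γ ∈ Γ₀, (ρ γ : Matrix n n R) ∈ mumfordTate J R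
  /-- the image of every subgroup of finite index spans the commutant of `D` -/
  faltings : ∀ Γ' : Subgroup Γ, Γ'.FiniteIndex → ∀ X ∈ centralizer D R,
    X ∈ Submodule.span R {X : Matrix n n R | ∃ γ ∈ Γ', X = (ρ γ : Matrix n n R)}
  /-- the connected monodromy group is generated by cocharacters `P + t (1 - P)`, where `P` is
  neither zero nor the identity on the image of any primitive idempotent of `D` -/
  cochars : ∀ p : MvPolynomial (n × n) K,
    (∀ s ∈ Submonoid.closure {X : Matrix n n K | ∃ (P : Matrix n n K) (t : K),
      IsCochar (monodromy ρ K) P ∧ t ≠ 0 ∧ (∀ e, Primitive D e → P * e ≠ 0 ∧ P * e ≠ e) ∧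
        X = P + t • (1 - P)}, pev s p = 0) → ∀ g ∈ monodromy ρ K, pev g p = 0
  /-- the conjecture holds for the abelian parts (determinants) -/
  abelian : ∀ X ∈ mumfordTate J K, ∃ Y ∈ monodromy ρ K, SameAbelianPart E D X Y

/-- Some element of the image of `ρ` is of the form `1 + N` with `N² = 0`, and `N` is of rank one on
the image of every primitive idempotent of the extension of `D` to `K`. -/
def MinimalToricRank {R Γ : Type*} [Field R] [CharZero R] [Group Γ] (D : Subalgebra ℚ (Matrix n n ℚ))
    (ρ : Γ →* GL n R) (K : Type*) [Field K] [CharZero K] [Algebra R K] : Prop :=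
  ∃ γ : Γ, ((ρ γ : Matrix n n R) - 1) ^ 2 = 0 ∧ ∀ e : Matrix n n K, Primitive D e →
    (((ρ γ : Matrix n n R) - 1).map (algebraMap R K) * e).rank = 1

end Pool.Agent.MT4
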