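import Pool.Agent.Helper79_MT4.Defs

/-! Module statements of the squad MT4. -/

set_option autoImplicit false

namespace Pool.Agent.MT4

open Module LinearMap Polynomial

universe u v w

/-- CUR: polynomial curves. -/
def CurStmt : Prop := ∀ (K : Type u) (V : Type v) [Field K] [AddCommGroup V] [Module K V],
  (∀ a : End K V, IsCurve (fun _ : K => a)) ∧
  (∀ p q : K → End K V, IsCurve p → IsCurve q → IsCurve (fun s => p s + q s)) ∧
  (∀ p q : K → End K V, IsCurve p → IsCurve q → IsCurve (fun s => p s - q s)) ∧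
  (∀ p q : K → End K V, IsCurve p → IsCurve q → IsCurve (fun s => p s * q s)) ∧
  (∀ (P : K[X]) (p : K → End K V), IsCurve p → IsCurve (fun s => P.eval s • p s)) ∧
  (∀ (P : K[X]) (p : K → End K V), IsCurve p → IsCurve (fun s => p (P.eval s))) ∧
  (∀ (F : End K V →ₗ[K] K) (p : K → End K V), IsCurve p → ∃ P : K[X], ∀ s, F (p s) = P.eval s)

/-- GRP: the group `Gp`. -/
def GrpStmt : Prop := ∀ (K : Type u) (V : Type v) (ι : Type w) [Field K] [CharZero K]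
  [AddCommGroup V] [Module K V] [FiniteDimensional K V] (ψ : V →ₗ[K] V →ₗ[K] K)
  (e : ι → End K V) (σ : ι → ι) (g : Submodule K (End K V)), Blk4 ψ e σ g →
  ∀ a b : End K V, Gp e g a b →
    a * b = 1 ∧ b * a = 1 ∧ (∀ i, a * e i = e i * a) ∧ (∀ i, b * e i = e i * b) ∧
    (∀ X ∈ g, a * X * b ∈ g) ∧ (∀ M ∈ R0 e g, a * M * b ∈ R0 e g) ∧ Gp e g b a ∧
    ∀ c d : End K V, Gp e g c d → Gp e g (a * c) (d * b)

/-- ORB: the orbit. -/
def OrbStmt : Prop := ∀ (K : Type u) (V : Type v) (ι : Type w) [Field K] [CharZero K]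
  [AddCommGroup V] [Module K V] [FiniteDimensional K V] (ψ : V →ₗ[K] V →ₗ[K] K)
  (e : ι → End K V) (σ : ι → ι) (g : Submodule K (End K V)) (N : End K V), Blk4 ψ e σ g →
  N ∈ R0 e g →
    N ∈ Orb e g N ∧ (∀ M ∈ Orb e g N, M ∈ R0 e g) ∧
    (∀ M ∈ Orb e g N, ∀ k : K, k ≠ 0 → k • M ∈ Orb e g N) ∧
    (∀ M ∈ Orb e g N, ∀ a b : End K V, Gp e g a b → a * M * b ∈ Orb e g N) ∧
    (∀ M ∈ Orb e g N, ∀ L ∈ Orb e g N, ∀ t : K, (1 + t • L) * M * (1 - t • L) ∈ Orb e g N)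

/-- PATH: polynomial curves in `Gp`. -/
def PathStmt : Prop := ∀ (K : Type u) (V : Type v) (ι : Type w) [Field K] [CharZero K]
  [AddCommGroup V] [Module K V] [FiniteDimensional K V] (ψ : V →ₗ[K] V →ₗ[K] K)
  (e : ι → End K V) (σ : ι → ι) (g : Submodule K (End K V)), Blk4 ψ e σ g →
  ∀ a b : End K V, Gp e g a b →
    ∃ (p q : K → End K V) (c : K[X]), IsCurve p ∧ IsCurve q ∧ p 0 = 1 ∧ p 1 = a ∧
      c.eval 0 ≠ 0 ∧ c.eval 1 ≠ 0 ∧
      (∀ s, c.eval s ≠ 0 → ∃ (b' : End K V) (k : K), k ≠ 0 ∧ Gp e g (p s) b' ∧ q s = k • b')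

/-- IRR: the orbit is irreducible. -/
def IrrStmt : Prop := ∀ (K : Type u) (V : Type v) (ι : Type w) [Field K] [CharZero K]
  [AddCommGroup V] [Module K V] [FiniteDimensional K V] (ψ : V →ₗ[K] V →ₗ[K] K)
  (e : ι → End K V) (σ : ι → ι) (g : Submodule K (End K V)) (N : End K V), Blk4 ψ e σ g →
  N ∈ R0 e g → ∀ Φ₁ Φ₂ : End K V → End K V → End K V → K, PolyOn Φ₁ → PolyOn Φ₂ →
    (∀ A ∈ Orb e g N, ∀ B ∈ Orb e g N, ∀ C ∈ Orb e g N, Φ₁ A B C * Φ₂ A B C = 0) →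
      (∀ A ∈ Orb e g N, ∀ B ∈ Orb e g N, ∀ C ∈ Orb e g N, Φ₁ A B C = 0) ∨
      (∀ A ∈ Orb e g N, ∀ B ∈ Orb e g N, ∀ C ∈ Orb e g N, Φ₂ A B C = 0)

/-- BAS: no fixed vectors, the images span, irreducibility under the orbit, the trace form. -/
def BasStmt : Prop := ∀ (K : Type u) (V : Type v) (ι : Type w) [Field K] [CharZero K]
  [AddCommGroup V] [Module K V] [FiniteDimensional K V] (ψ : V →ₗ[K] V →ₗ[K] K)
  (e : ι → End K V) (σ : ι → ι) (g : Submodule K (End K V)) (N : End K V), Blk4 ψ e σ g →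
  N ∈ R0 e g → ∀ i,
    (∀ x, e i x = x → (∀ M ∈ Orb e g N, M x = 0) → x = 0) ∧
    (∀ F : V →ₗ[K] K, (∀ M ∈ Orb e g N, ∀ x, F (e i (M x)) = 0) → ∀ x, F (e i x) = 0) ∧
    (∀ U : Submodule K V, (∀ x ∈ U, e i x = x) → (∀ M ∈ Orb e g N, ∀ x ∈ U, M x ∈ U) →
      (∀ x ∈ U, x = 0) ∨ (∀ x, e i x ∈ U)) ∧
    (∃ A ∈ Orb e g N, ∃ B ∈ Orb e g N, trace K V (A * B * e i) ≠ 0)

/-- RK: traces of products of rank one endomorphisms. -/
def RkStmt : Prop := ∀ (K : Type u) (V : Type v) [Field K] [AddCommGroup V] [Module K V]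
  [FiniteDimensional K V] (A B C : End K V), RankOne A → RankOne B → RankOne C →
    (∀ X : End K V, A * X * A = trace K V (A * X) • A) ∧
    (trace K V (A * B * C) * trace K V (B * A * C) =
      trace K V (A * B) * trace K V (B * C) * trace K V (C * A)) ∧
    (∀ X Y : End K V, trace K V (A * X * B * Y) * trace K V (A * B) =
      trace K V (A * X * B) * trace K V (A * B * Y)) ∧
    (∀ x y, A x ≠ 0 → ∃ c : K, A y = c • A x)

/-- WORDS: equality of the traces of all words. -/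
def WordsStmt : Prop := ∀ (K : Type u) (V : Type v) (ι : Type w) [Field K] [CharZero K]
  [AddCommGroup V] [Module K V] [FiniteDimensional K V] (ψ : V →ₗ[K] V →ₗ[K] K)
  (e : ι → End K V) (σ : ι → ι) (g : Submodule K (End K V)) (N : End K V), Blk4 ψ e σ g →
  N ∈ R0 e g → ∀ i j,
    (∀ A ∈ Orb e g N, ∀ B ∈ Orb e g N, trace K V (A * B * e i) = trace K V (A * B * e j)) →
    (∀ A ∈ Orb e g N, ∀ B ∈ Orb e g N, ∀ C ∈ Orb e g N,
      trace K V (A * B * C * e i) = trace K V (A * B * C * e j)) →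
    ∀ b ∈ Algebra.adjoin K (Orb e g N), ∀ A ∈ Orb e g N, ∀ B ∈ Orb e g N,
      trace K V (A * B * b * e i) = trace K V (A * B * b * e j)

/-- GR1: a graph stable under the orbit. -/
def Gr1Stmt : Prop := ∀ (K : Type u) (V : Type v) (ι : Type w) [Field K] [CharZero K]
  [AddCommGroup V] [Module K V] [FiniteDimensional K V] (ψ : V →ₗ[K] V →ₗ[K] K)
  (e : ι → End K V) (σ : ι → ι) (g : Submodule K (End K V)) (N : End K V), Blk4 ψ e σ g →
  N ∈ R0 e g → ∀ i j, i ≠ j →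
    (∀ b ∈ Algebra.adjoin K (Orb e g N), ∀ A ∈ Orb e g N, ∀ B ∈ Orb e g N,
      trace K V (A * B * b * e i) = trace K V (A * B * b * e j)) →
    ∃ W : Submodule K V, (∀ x ∈ W, e i x + e j x = x) ∧ (∀ M ∈ Orb e g N, ∀ x ∈ W, M x ∈ W) ∧
      (∀ x ∈ W, e i x = 0 → x = 0) ∧ (∀ x ∈ W, e j x = 0 → x = 0) ∧ ∃ x ∈ W, x ≠ 0

/-- GR2: there is no such graph. -/
def Gr2Stmt : Prop := ∀ (K : Type u) (V : Type v) (ι : Type w) [Field K] [CharZero K]
  [IsAlgClosed K] [AddCommGroup V] [Module K V] [FiniteDimensional K V] (ψ : V →ₗ[K] V →ₗ[K] K)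
  (e : ι → End K V) (σ : ι → ι) (g : Submodule K (End K V)) (N : End K V), Blk4 ψ e σ g →
  N ∈ R0 e g → ∀ i j, i ≠ j → ∀ W : Submodule K V, (∀ x ∈ W, e i x + e j x = x) →
    (∀ M ∈ Orb e g N, ∀ x ∈ W, M x ∈ W) → (∀ x ∈ W, e i x = 0 → x = 0) →
    (∀ x ∈ W, e j x = 0 → x = 0) → ∀ x ∈ W, x = 0

/-- SIGN: equality of traces up to reversal. -/
def SignStmt : Prop := ∀ (K : Type u) (V : Type v) (ι : Type w) [Field K] [CharZero K]
  [AddCommGroup V] [Module K V] [FiniteDimensional K V] (ψ : V →ₗ[K] V →ₗ[K] K)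
  (e : ι → End K V) (σ : ι → ι) (g : Submodule K (End K V)) (N : End K V), Blk4 ψ e σ g →
  N ∈ R0 e g → ∀ i j,
    (∀ X ∈ g, ∀ A ∈ Orb e g N, trace K V (X * A * e i) = trace K V (X * A * e j)) →
    (∀ A ∈ Orb e g N, ∀ B ∈ Orb e g N, ∀ C ∈ Orb e g N,
      trace K V (A * B * C * e i) = trace K V (A * B * C * e j)) ∨
    (∀ A ∈ Orb e g N, ∀ B ∈ Orb e g N, ∀ C ∈ Orb e g N,
      trace K V (A * B * C * e i) = -trace K V (B * A * C * e j))

/-- ADJ: traces on the dual block. -/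
def AdjStmt : Prop := ∀ (K : Type u) (V : Type v) (ι : Type w) [Field K] [CharZero K]
  [AddCommGroup V] [Module K V] [FiniteDimensional K V] (ψ : V →ₗ[K] V →ₗ[K] K)
  (e : ι → End K V) (σ : ι → ι) (g : Submodule K (End K V)), Blk4 ψ e σ g →
  ∀ i, ∀ X ∈ g, ∀ Y ∈ g, ∀ Z ∈ g,
    trace K V (X * e (σ i)) = -trace K V (X * e i) ∧
    trace K V (X * Y * e (σ i)) = trace K V (X * Y * e i) ∧
    trace K V (X * Y * Z * e (σ i)) = -trace K V (Y * X * Z * e i)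

/-- SEP: the blocks are separated by the trace forms. -/
def SepStmt : Prop := ∀ (K : Type u) (V : Type v) (ι : Type w) [Field K] [CharZero K]
  [IsAlgClosed K] [AddCommGroup V] [Module K V] [FiniteDimensional K V] (ψ : V →ₗ[K] V →ₗ[K] K)
  (e : ι → End K V) (σ : ι → ι) (g : Submodule K (End K V)) (N : End K V), Blk4 ψ e σ g →
  N ∈ R0 e g → ∀ i j, j ≠ i → j ≠ σ i →
    ∃ X ∈ g, trace K V (X * N * e i) ≠ trace K V (X * N * e j)

/-- GAM: the cubic form does not vanish. -/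
def GamStmt : Prop := ∀ (K : Type u) (V : Type v) (ι : Type w) [Field K] [CharZero K]
  [IsAlgClosed K] [AddCommGroup V] [Module K V] [FiniteDimensional K V] (ψ : V →ₗ[K] V →ₗ[K] K)
  (e : ι → End K V) (σ : ι → ι) (g : Submodule K (End K V)) (N : End K V), Blk4 ψ e σ g →
  N ∈ R0 e g → ∀ i, ∃ A ∈ Orb e g N, ∃ B ∈ Orb e g N, ∃ C ∈ Orb e g N,
    trace K V (A * B * e i) ≠ 0 ∧ trace K V (A * C * e i) ≠ 0 ∧
      trace K V (A * B * C * e i) + trace K V (B * A * C * e i) ≠ 0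

/-- LAM: the two dual parts of `N` lie in `g`. -/
def LamStmt : Prop := ∀ (K : Type u) (V : Type v) (ι : Type w) [Field K] [CharZero K]
  [IsAlgClosed K] [AddCommGroup V] [Module K V] [FiniteDimensional K V] [Fintype ι]
  (ψ : V →ₗ[K] V →ₗ[K] K)
  (e : ι → End K V) (σ : ι → ι) (g : Submodule K (End K V)) (N : End K V), Blk4 ψ e σ g →
  N ∈ R0 e g → ∀ i, ∀ M ∈ Orb e g N, M * (e i + e (σ i)) ∈ g

/-- SL1: two rank one elements with the same image. -/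
def Sl1Stmt : Prop := ∀ (K : Type u) (W : Type v) [Field K] [CharZero K] [AddCommGroup W]
  [Module K W] [FiniteDimensional K W] (L : Submodule K (End K W)),
  (∀ X ∈ L, ∀ Y ∈ L, X * Y - Y * X ∈ L) → ∀ A ∈ L, ∀ B ∈ L, ∀ C ∈ L,
    RankOne A → RankOne B → RankOne C → A * A = 0 → B * B = 0 → C * C = 0 →
    trace K W (A * B) ≠ 0 → trace K W (A * C) ≠ 0 →
    trace K W (A * B * C) + trace K W (B * A * C) ≠ 0 →
    ∃ (x : W) (f φ : W →ₗ[K] K), x ≠ 0 ∧ f ≠ 0 ∧ (∀ c : K, φ ≠ c • f) ∧ f x = 0 ∧ φ x = 0 ∧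
      f.smulRight x ∈ L ∧ φ.smulRight x ∈ L

/-- A set of rank one elements of square zero of a Lie algebra, which is irreducible for products of
linear forms, without common kernel, with images spanning. -/
structure Fam {K : Type u} {W : Type v} [Field K] [AddCommGroup W] [Module K W]
    (L : Submodule K (End K W)) (O : Set (End K W)) : Prop where
  br : ∀ X ∈ L, ∀ Y ∈ L, X * Y - Y * X ∈ L
  sub : ∀ M ∈ O, M ∈ L
  rk : ∀ M ∈ O, RankOne M
  sq : ∀ M ∈ O, M * M = 0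
  irr : ∀ F₁ F₂ F₃ : End K W →ₗ[K] K, (∀ M ∈ O, F₁ M * F₂ M * F₃ M = 0) →
    (∀ M ∈ O, F₁ M = 0) ∨ (∀ M ∈ O, F₂ M = 0) ∨ (∀ M ∈ O, F₃ M = 0)
  fix : ∀ x, (∀ M ∈ O, M x = 0) → x = 0
  full : ∀ F : W →ₗ[K] K, (∀ M ∈ O, ∀ x, F (M x) = 0) → F = 0

/-- SL2: some vector has all its transvections in `L`. -/
def Sl2Stmt : Prop := ∀ (K : Type u) (W : Type v) [Field K] [CharZero K] [AddCommGroup W]
  [Module K W] [FiniteDimensional K W] (L : Submodule K (End K W)) (O : Set (End K W)), Fam L O →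
  ∀ (x : W) (f φ : W →ₗ[K] K), x ≠ 0 → f ≠ 0 → (∀ c : K, φ ≠ c • f) → f x = 0 → φ x = 0 →
      f.smulRight x ∈ L → φ.smulRight x ∈ L →
    ∃ y : W, y ≠ 0 ∧ ∀ θ : W →ₗ[K] K, θ y = 0 → θ.smulRight y ∈ L

/-- SL3: all transvections are in `L`. -/
def Sl3Stmt : Prop := ∀ (K : Type u) (W : Type v) [Field K] [CharZero K] [AddCommGroup W]
  [Module K W] [FiniteDimensional K W] (L : Submodule K (End K W)) (O : Set (End K W)), Fam L O →
  ∀ y : W, y ≠ 0 → (∀ θ : W →ₗ[K] K, θ y = 0 → θ.smulRight y ∈ L) →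
    ∀ (z : W) (θ : W →ₗ[K] K), θ z = 0 → θ.smulRight z ∈ L

/-- LIE: the theorem on Lie algebras. -/
def LieStmt : Prop := ∀ (K : Type u) (V : Type v) (ι : Type w) [Field K] [CharZero K]
  [IsAlgClosed K] [AddCommGroup V] [Module K V] [FiniteDimensional K V] [Fintype ι]
  (ψ : V →ₗ[K] V →ₗ[K] K)
  (e : ι → End K V) (σ : ι → ι) (g : Submodule K (End K V)) (N : End K V), Blk4 ψ e σ g →
  N ∈ R0 e g → ∀ i, ∀ a b : V, e i a = a → e (σ i) b = b → ψ a b = 0 → rr ψ a b ∈ g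

/-- SLGEN: the special linear group is generated by transvections. -/
def SlGenStmt : Prop := ∀ (K : Type u) (W : Type v) [Field K] [AddCommGroup W]
  [Module K W] [FiniteDimensional K W] (S : Set (End K W)), (∀ a ∈ S, ∀ b ∈ S, a * b ∈ S) →
  1 ∈ S → (∀ (x : W) (θ : W →ₗ[K] K), θ x = 0 → 1 + θ.smulRight x ∈ S) →
  ∀ A : End K W, LinearMap.det A = 1 → A ∈ S

/-- SPGEN: generation of the special unitary group of the blocks. -/
def SpGenStmt : Prop := ∀ (K : Type u) (V : Type v) (ι : Type w) [Field K] [CharZero K]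
  [AddCommGroup V] [Module K V] [FiniteDimensional K V] [Fintype ι] [DecidableEq ι]
  (ψ : V →ₗ[K] V →ₗ[K] K) (e : ι → End K V) (σ : ι → ι),
  (∀ x, (∀ y, ψ x y = 0) → x = 0) → (∀ x y, ψ x y = -ψ y x) → (∀ i, e i * e i = e i) →
  (∀ i j, i ≠ j → e i * e j = 0) → (∑ i, e i = 1) → (∀ i, σ (σ i) = i) → (∀ i, σ i ≠ i) →
  (∀ i x y, ψ (e i x) y = ψ x (e (σ i) y)) →
  ∀ S : Set (End K V), (∀ a ∈ S, ∀ b ∈ S, a * b ∈ S) → 1 ∈ S →
  (∀ i, ∀ a b : V, e i a = a → e (σ i) b = b → ψ a b = 0 → 1 + rr ψ a b ∈ S) →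
  ∀ A : End K V, (∀ x y, ψ (A x) (A y) = ψ x y) → (∀ i, A * e i = e i * A) →
    (∀ i, LinearMap.det (A * e i + (1 - e i)) = 1) → A ∈ S

end Pool.Agent.MT4
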