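import Pool.Agent.Helper78_MT.GroupE
import Pool.Agent.Helper79_MT4.Stmt

/-! Closed monoids of similitudes of unitary type containing an element of rank one. -/

set_option autoImplicit false
set_option linter.unusedSectionVars false
set_option linter.unusedSimpArgs false

namespace Pool.Agent.MT4

open MvPolynomial Matrix Module Pool.Agent.Helper78_MT

universe u v w

section
variable {n : Type v} [Fintype n] [DecidableEq n] {K : Type u} [Field K] {ι : Type w}

/-- the elements of the cocharacters of weights zero and one which are trivial on no block -/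
def ndSet (e : ι → Matrix n n K) (G : Set (Matrix n n K)) : Set (Matrix n n K) :=
  {X | ∃ (P : Matrix n n K) (t : K), IsCochar G P ∧ t ≠ 0 ∧ (∀ i, P * e i ≠ 0 ∧ P * e i ≠ e i) ∧
    X = P + t • (1 - P)}

theorem nd_stable {e : ι → Matrix n n K} {G : Set (Matrix n n K)}
    (hgen : ∀ p : MvPolynomial (n × n) K, (∀ s ∈ Submonoid.closure (ndSet e G), pev s p = 0) →
      ∀ g ∈ G, pev g p = 0)
    {U : Submodule K (n → K)}
    (hU : ∀ P, IsCochar G P → (∀ i, P * e i ≠ 0 ∧ P * e i ≠ e i) → ∀ u ∈ U, P *ᵥ u ∈ U) :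
    ∀ M ∈ Submodule.span K G, ∀ u ∈ U, M *ᵥ u ∈ U := by
  have h1 : ∀ s ∈ Submonoid.closure (ndSet e G), ∀ u ∈ U, s *ᵥ u ∈ U := by
    intro s hs
    induction hs using Submonoid.closure_induction with
    | mem x hx =>
      obtain ⟨P, t, hP, ht, hnd, rfl⟩ := hx
      intro u hu
      have hPu : P *ᵥ u ∈ U := hU P hP hnd u hu
      rw [add_mulVec, smul_mulVec, sub_mulVec, one_mulVec]
      exact U.add_mem hPu (U.smul_mem _ (U.sub_mem hu hPu))
    | one => intro u hu; rwa [one_mulVec]
    | mul x y _ _ hx hy =>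
      intro u hu
      rw [← mulVec_mulVec]
      exact hx _ (hy _ hu)
  have h2 : ∀ g ∈ G, ∀ u ∈ U, g *ᵥ u ∈ U := by
    intro g hg u hu
    by_contra hcon
    obtain ⟨f, hf1, hf2⟩ := Submodule.exists_le_ker_of_notMem hcon
    apply hf1
    let p : MvPolynomial (n × n) K := ∑ i, ∑ j, C (f (Pi.single i 1) * u j) * X (i, j)
    have hp : ∀ M : Matrix n n K, pev M p = f (M *ᵥ u) := by
      intro M
      have e1 : M *ᵥ u = ∑ i, (M *ᵥ u) i • (Pi.single i (1 : K) : n → K) := by
        ext k
        simp [Finset.sum_apply, Pi.single_apply]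
      rw [e1, map_sum]
      simp only [p, map_sum, map_mul, pev_C, pev_X, map_smul, smul_eq_mul]
      apply Finset.sum_congr rfl
      intro i _
      rw [mulVec, dotProduct, Finset.sum_mul]
      apply Finset.sum_congr rfl
      intro j _
      simp only [Algebra.algebraMap_self, RingHom.id_apply]
      ring
    rw [← hp]
    apply hgen _ _ g hg
    intro s hs
    rw [hp]
    exact hf2 (h1 s hs u hu)
  intro M hM
  induction hM using Submodule.span_induction with
  | mem x hx => exact h2 x hx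
  | zero => intro u _; rw [zero_mulVec]; exact U.zero_mem
  | add x y _ _ hx hy =>
    intro u hu; rw [add_mulVec]; exact U.add_mem (hx u hu) (hy u hu)
  | smul a x _ hx =>
    intro u hu; rw [smul_mulVec]; exact U.smul_mem _ (hx u hu)

/-- the version with blocks -/
theorem nd_irr_blk {e : ι → Matrix n n K} (he : ∀ i, e i * e i = e i)
    (ho : ∀ i j, i ≠ j → e i * e j = 0) {G : Set (Matrix n n K)}
    (hgen : ∀ p : MvPolynomial (n × n) K, (∀ s ∈ Submonoid.closure (ndSet e G), pev s p = 0) →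
      ∀ g ∈ G, pev g p = 0)
    (hspan : ∀ X : Matrix n n K, (∀ i, X * e i = e i * X) → X ∈ Submodule.span K G)
    {U : Submodule K (n → K)}
    (hU : ∀ P, IsCochar G P → (∀ i, P * e i ≠ 0 ∧ P * e i ≠ e i) → ∀ u ∈ U, P *ᵥ u ∈ U) (i : ι) :
    (∀ v, e i *ᵥ v ∈ U) ∨ (∀ u ∈ U, e i *ᵥ u = 0) := by
  by_cases hz : ∀ u ∈ U, e i *ᵥ u = 0
  · exact Or.inr hz
  left
  push Not at hz
  obtain ⟨u, hu, hu0⟩ := hz
  intro v
  obtain ⟨M, hM⟩ := exists_matrix hu0 v
  have h1 := nd_stable hgen hU (e i * M * e i) (hspan _ (by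
    intro j
    by_cases hij : i = j
    · rw [← hij]
      calc e i * M * e i * e i = e i * M * (e i * e i) := by rw [mul_assoc]
        _ = (e i * e i) * M * e i := by rw [he]
        _ = e i * (e i * M * e i) := by simp only [mul_assoc]
    · calc e i * M * e i * e j = e i * M * (e i * e j) := by rw [mul_assoc]
        _ = (e j * e i) * M * e i := by rw [ho i j hij, ho j i (Ne.symm hij)]; simp
        _ = e j * (e i * M * e i) := by simp only [mul_assoc])) u hu
  rw [← mulVec_mulVec, ← mulVec_mulVec, hM] at h1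
  exact h1

theorem rankOne_of_rank {A : Matrix n n K} (h : A.rank = 1) : RankOne (φm A) := by
  have h1 : finrank K (LinearMap.range (φm A)) = 1 := h
  obtain ⟨⟨y, hy⟩, hy0, hspan⟩ := finrank_eq_one_iff'.mp h1
  have hy0' : y ≠ 0 := fun h => hy0 (Subtype.ext h)
  obtain ⟨θ, hθ⟩ : ∃ θ : (n → K) →ₗ[K] K, θ y = 1 := by
    by_contra hcon
    push Not at hcon
    apply hy0'
    apply (Module.forall_dual_apply_eq_zero_iff K y).mp
    intro θ
    by_contra h0
    apply hcon ((θ y)⁻¹ • θ)
    rw [LinearMap.smul_apply, smul_eq_mul, inv_mul_cancel₀ h0]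
  refine ⟨y, θ.comp (φm A), hy0', ?_, ?_⟩
  · intro h0
    obtain ⟨x, hx⟩ := hy
    have := congrArg (fun f => f x) h0
    change θ ((φm A) x) = 0 at this
    rw [hx, hθ] at this
    exact one_ne_zero this
  · apply LinearMap.ext
    intro x
    obtain ⟨c, hc⟩ := hspan ⟨(φm A) x, x, rfl⟩
    have hc' : c • y = (φm A) x := congrArg Subtype.val hc
    change (φm A) x = θ ((φm A) x) • y
    rw [← hc', map_smul, hθ, smul_eq_mul, mul_one]

end

section
variable {K : Type u} {V : Type v} [Field K] [AddCommGroup V] [Module K V]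

theorem rr_apply (ψ : V →ₗ[K] V →ₗ[K] K) (a b x : V) : rr ψ a b x = ψ a x • b + ψ b x • a := rfl

theorem rr_sq {ψ : V →ₗ[K] V →ₗ[K] K} (alt : ∀ x, ψ x x = 0) (skew : ∀ x y, ψ x y = -ψ y x) {a b : V}
    (h : ψ a b = 0) : rr ψ a b * rr ψ a b = 0 := by
  have h' : ψ b a = 0 := by rw [skew, h, neg_zero]
  apply LinearMap.ext
  intro x
  rw [Module.End.mul_apply, rr_apply, rr_apply]
  simp [alt, h, h']

theorem rr_br {ψ : V →ₗ[K] V →ₗ[K] K} (alt : ∀ x, ψ x x = 0) (skew : ∀ x y, ψ x y = -ψ y x)
    {a b v c : V} (hab : ψ a b = 0) (hvc : ψ v c = 0) (hbv : ψ b v = 1) (hca : ψ c a = 1)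
    (hav : ψ a v = 0) (hbc : ψ b c = 0) {H : End K V}
    (hH : H = rr ψ a b * rr ψ v c - rr ψ v c * rr ψ a b) :
    H * rr ψ a b - rr ψ a b * H = (2 : K) • rr ψ a b := by
  have hba : ψ b a = 0 := by rw [skew, hab, neg_zero]
  have hcv : ψ c v = 0 := by rw [skew, hvc, neg_zero]
  have hvb : ψ v b = -1 := by rw [skew, hbv]
  have hac : ψ a c = -1 := by rw [skew, hca]
  have hva : ψ v a = 0 := by rw [skew, hav, neg_zero]
  have hcb : ψ c b = 0 := by rw [skew, hbc, neg_zero]
  apply LinearMap.ext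
  intro x
  simp only [hH, LinearMap.sub_apply, Module.End.mul_apply, LinearMap.smul_apply, rr_apply, map_add,
    map_sub, map_smul, alt, hab, hba, hvc, hcv, hbv, hvb, hca, hac, hav, hva, hbc, hcb, smul_eq_mul,
    mul_zero, zero_smul, smul_zero, add_zero, zero_add, map_zero, map_neg, LinearMap.zero_apply,
    neg_smul, one_smul]
  module

end

variable {n : Type v} [Fintype n] [DecidableEq n] {K : Type u} [Field K] [CharZero K]
  {ι : Type w} [Fintype ι] [DecidableEq ι]

theorem group4 (hLie : LieStmt.{u, max u v, w}) (hSpG : SpGenStmt.{u, max u v, w}) [IsAlgClosed K]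
    {E : Matrix n n K} (hE : IsUnit E.det) (hskew : Eᵀ = -E)
    {e : ι → Matrix n n K} {σ : ι → ι} (idem : ∀ i, e i * e i = e i)
    (orth : ∀ i j, i ≠ j → e i * e j = 0)
    (hsum : ∑ i, e i = 1) (adj : ∀ i, (e i)ᵀ * E = E * e (σ i)) (inv : ∀ i, σ (σ i) = i)
    (nfix : ∀ i, σ i ≠ i)
    {G : Set (Matrix n n K)} (hone : 1 ∈ G) (hmul : ∀ a ∈ G, ∀ b ∈ G, a * b ∈ G)
    (hcl : ∀ M : Matrix n n K, IsUnit M.det →
      (∀ p : MvPolynomial (n × n) K, (∀ g ∈ G, pev g p = 0) → pev M p = 0) → M ∈ G)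
    (hGSp : ∀ g ∈ G, ∃ c : K, gᵀ * E * g = c • E)
    (hcomm : ∀ g ∈ G, ∀ i, g * e i = e i * g)
    (hgen : ∀ p : MvPolynomial (n × n) K, (∀ s ∈ Submonoid.closure (ndSet e G), pev s p = 0) →
      ∀ g ∈ G, pev g p = 0)
    (hspan : ∀ X : Matrix n n K, (∀ i, X * e i = e i * X) → X ∈ Submodule.span K G)
    {N : Matrix n n K} (hN2 : N * N = 0) (hN : ∀ t : K, 1 + t • N ∈ G)
    (hr : ∀ i, (N * e i).rank = 1) {X : Matrix n n K}
    (hXE : Xᵀ * E * X = E) (hXe : ∀ i, X * e i = e i * X)
    (hXd : ∀ i, (X * e i + (1 - e i)).det = 1) : X ∈ G := by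
  have hEu : IsUnit E := (isUnit_iff_isUnit_det E).mpr hE
  have nψ : ∀ u, (∀ v, bil E u v = 0) → u = 0 := by
    intro u hu
    have h1 : u ᵥ* E = 0 := by
      ext j
      have := hu (Pi.single j 1)
      rw [bil_apply, dotProduct_mulVec] at this
      simpa using this
    have h2 : u ᵥ* (E * E⁻¹) = 0 := by rw [← vecMul_vecMul, h1, zero_vecMul]
    rwa [mul_nonsing_inv E hE, vecMul_one] at h2
  have skew : ∀ u v, bil E u v = -bil E v u := by
    intro u v
    rw [bil_apply, bil_apply]
    have h1 : v ⬝ᵥ (E *ᵥ u) = u ⬝ᵥ (Eᵀ *ᵥ v) := by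
      rw [dotProduct_mulVec u Eᵀ, vecMul_transpose, dotProduct_comm]
    rw [h1, hskew, neg_mulVec, dotProduct_neg, neg_neg]
  have alt : ∀ u, bil E u u = 0 := alt_of_skew skew
  have adjψ : ∀ i u v, bil E ((φm (e i)) u) v = bil E u ((φm (e (σ i))) v) := by
    intro i u v
    rw [φm_apply, φm_apply]
    have h1 := bil_mul E (e i) 1 u v
    have h2 := bil_mul E 1 (e (σ i)) u v
    rw [one_mulVec, mul_one] at h1
    rw [one_mulVec, transpose_one, one_mul] at h2
    rw [h1, h2, adj]
  -- the Lie algebra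
  let g : Submodule K (Module.End K (n → K)) :=
    { carrier := {T | (∀ u v, bil E (T u) v = -bil E u (T v)) ∧ (∀ i, T * φm (e i) = φm (e i) * T) ∧
        ∃ c : K, φm.symm T + c • 1 ∈ lieOf G}
      add_mem' := by
        rintro S T ⟨h1, h1', c1, h2⟩ ⟨h3, h3', c2, h4⟩
        refine ⟨?_, ?_, c1 + c2, ?_⟩
        · intro u v
          simp only [LinearMap.add_apply, map_add]
          rw [h1, h3]; ring
        · intro i; rw [add_mul, mul_add, h1', h3']
        · have : φm.symm (S + T) + (c1 + c2) • 1 = (φm.symm S + c1 • 1) + (φm.symm T + c2 • 1) := by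
            rw [map_add]; module
          rw [this]
          exact (lieOf G).add_mem h2 h4
      zero_mem' := by
        refine ⟨by simp, by simp, 0, ?_⟩
        rw [map_zero, zero_smul, add_zero]; exact (lieOf G).zero_mem
      smul_mem' := by
        rintro s T ⟨h1, h1', c1, h2⟩
        refine ⟨?_, ?_, s * c1, ?_⟩
        · intro u v
          simp only [LinearMap.smul_apply, map_smul]
          rw [h1]; simp
        · intro i; rw [smul_mul_assoc, mul_smul_comm, h1']
        · have : φm.symm (s • T) + (s * c1) • 1 = s • (φm.symm T + c1 • 1) := by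
            rw [map_smul]; module
          rw [this]
          exact (lieOf G).smul_mem _ h2 }
  have hb : ∀ S ∈ g, ∀ T ∈ g, φm.symm (S * T - T * S) ∈ lieOf G := by
    rintro S ⟨-, -, c1, h2⟩ T ⟨-, -, c2, h4⟩
    have h5 := lieOf_br h2 h4
    have : (φm.symm S + c1 • 1) * (φm.symm T + c2 • 1) - (φm.symm T + c2 • 1) * (φm.symm S + c1 • 1) =
        φm.symm (S * T - T * S) := by
      rw [map_sub, map_mul, map_mul]
      simp only [mul_add, add_mul, smul_mul_assoc, mul_smul_comm, one_mul, mul_one, smul_smul]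
      module
    rw [this] at h5
    exact h5
  have hbr : ∀ S ∈ g, ∀ T ∈ g, S * T - T * S ∈ g := by
    intro S hS T hT
    refine ⟨?_, ?_, 0, ?_⟩
    · intro u v
      simp only [LinearMap.sub_apply, Module.End.mul_apply, map_sub]
      rw [hS.1, hT.1, hT.1, hS.1]; ring
    · intro i; exact comm_sub (hS.2.1 i) (hT.2.1 i)
    · rw [zero_smul, add_zero]
      exact hb S hS T hT
  have φcomm : ∀ A : Matrix n n K, (∀ i, A * e i = e i * A) → ∀ i, φm A * φm (e i) = φm (e i) * φm A := by
    intro A hA i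
    rw [← map_mul, hA, map_mul]
  -- cocharacters
  have hPc : ∀ P, IsCochar G P → ∀ i, P * e i = e i * P := by
    intro P hP i
    apply commute_of_curve (Q := 1 - P)
    · exact hcomm _ (hP.2 2 two_ne_zero) i
    · rw [add_sub_cancel]; simp
  have hco : ∀ (P : Matrix n n K) (i₀ : ι), IsCochar G P → (∀ i, P * e i ≠ 0 ∧ P * e i ≠ e i) →
      φm ((1 - P) - (1 / 2 : K) • 1) ∈ Hs (fun i => φm (e i)) g := by
    intro P i₀ hP hnd
    have h0 : P ≠ 0 := by
      rintro rfl
      exact (hnd i₀).1 (zero_mul _)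
    have h1 : P ≠ 1 := by
      rintro rfl
      exact (hnd i₀).2 (one_mul _)
    rcases cochar hE hP.1 (fun t ht => hGSp _ (hP.2 t ht)) with h2 | h2 | ⟨h2, h3⟩
    · exact absurd h2 h0
    · exact absurd h2 h1
    refine ⟨⟨sp_iff h3, ?_, 1 / 2, ?_⟩, ?_, ?_⟩
    · apply φcomm
      intro i
      have := hPc P hP i
      simp only [sub_mul, mul_sub, one_mul, mul_one, smul_mul_assoc, mul_smul_comm, this]
    · rw [AlgEquiv.symm_apply_apply, sub_add_cancel]
      exact lieOf_torus hmul hP.1 hP.2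
    · rw [← map_mul]
      have hQQ : (1 - P) * (1 - P) = 1 - P := by
        rw [sub_mul, one_mul, mul_sub, mul_one, hP.1]; abel
      have : ((1 - P) - (1 / 2 : K) • 1) * ((1 - P) - (1 / 2 : K) • 1) = (1 / 4 : K) • (1 : Matrix n n K) := by
        obtain ⟨Q, hQ⟩ : ∃ Q, Q = 1 - P := ⟨_, rfl⟩
        rw [← hQ] at hQQ ⊢
        rw [sub_mul, mul_sub, mul_sub, hQQ]
        simp only [smul_mul_assoc, mul_smul_comm, one_mul, mul_one]
        module
      rw [this, map_smul, map_one]
    · intro i
      have e1 : ((1 - P) - (1 / 2 : K) • 1) * e i = (1 / 2 : K) • e i - P * e i := by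
        simp only [sub_mul, one_mul, smul_mul_assoc]
        module
      refine ⟨?_, ?_⟩
      · intro h
        apply (hnd i).1
        change φm _ * φm (e i) = _ at h
        rw [← map_mul, ← map_smul] at h
        have h' := φm.injective h
        rw [e1] at h'
        exact sub_eq_self.mp h'
      · intro h
        apply (hnd i).2
        change φm _ * φm (e i) = _ at h
        rw [← map_mul, ← map_smul, ← map_neg] at h
        have h' := φm.injective h
        rw [e1] at h'
        have : P * e i = (1 / 2 : K) • e i - ((1 / 2 : K) • e i - P * e i) := by abel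
        rw [this, h']; module
  have hNc : ∀ i, N * e i = e i * N := by
    intro i
    have h1 := hcomm _ (hN 1) i
    rw [one_smul, add_mul, mul_add, one_mul, mul_one] at h1
    exact add_left_cancel h1
  have hNg : φm N ∈ g := by
    refine ⟨sp_iff (unip_sp hE hN2 (fun t => hGSp _ (hN t))), φcomm N hNc, 0, ?_⟩
    rw [AlgEquiv.symm_apply_apply, zero_smul, add_zero]
    exact lieOf_unip hmul hN2 hN
  have hNR : φm N ∈ R0 (fun i => φm (e i)) g := by
    refine ⟨hNg, by rw [← map_mul, hN2, map_zero], ?_⟩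
    intro i
    change RankOne (φm N * φm (e i))
    rw [← map_mul]
    exact rankOne_of_rank (hr i)
  have blk : Blk4 (bil E) (fun i => φm (e i)) σ g := by
    refine ⟨nψ, skew, hbr, fun X hX => hX.1, ?_, ?_, ?_, ?_, inv, nfix, adjψ, ?_⟩
    · intro i; change φm _ * φm _ = φm _; rw [← map_mul, idem]
    · intro i j hij; change φm _ * φm _ = 0; rw [← map_mul, orth i j hij, map_zero]
    · intro x hx
      have h1 : (φm (∑ i, e i)) x = 0 := by
        rw [map_sum, LinearMap.sum_apply]
        exact Finset.sum_eq_zero (fun i _ => hx i)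
      rwa [hsum, map_one, Module.End.one_apply] at h1
    · intro X hX i; exact hX.2.1 i
    · intro U hU i
      apply nd_irr_blk idem orth hgen hspan
      intro P hP hnd u hu
      have h4 := hU _ (hco P i hP hnd) u hu
      rw [φm_apply, sub_mulVec, sub_mulVec, one_mulVec, smul_mulVec, one_mulVec] at h4
      have h5 : P *ᵥ u = (1 / 2 : K) • u - (u - P *ᵥ u - (1 / 2 : K) • u) := by module
      rw [h5]
      exact U.sub_mem (U.smul_mem _ hu) h4
  have hlie := hLie K (n → K) ι (bil E) (fun i => φm (e i)) σ g (φm N) blk hNR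
  have hσ : ∀ i j, i ≠ j → ∀ x, (φm (e i)) ((φm (e j)) x) = 0 := by
    intro i j hij x
    rw [← Module.End.mul_apply, ← map_mul, orth i j hij, map_zero]; rfl
  have hidem : ∀ i x, (φm (e i)) ((φm (e i)) x) = (φm (e i)) x := by
    intro i x
    rw [← Module.End.mul_apply, ← map_mul, idem]
  -- the blocks are isotropic
  have iso : ∀ i x y, (φm (e i)) x = x → (φm (e i)) y = y → bil E x y = 0 := by
    intro i x y hx hy
    rw [← hx, adjψ, ← hy, hσ _ _ (nfix i), map_zero]
  -- duality
  have dual : ∀ i x, (φm (e i)) x = x → x ≠ 0 → ∃ y, (φm (e (σ i))) y = y ∧ bil E x y = 1 := by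
    intro i x hx hx0
    obtain ⟨y, hy⟩ : ∃ y, bil E x y ≠ 0 := by
      by_contra hcon
      push Not at hcon
      exact hx0 (nψ x hcon)
    refine ⟨(bil E x y)⁻¹ • (φm (e (σ i))) y, by rw [map_smul, hidem], ?_⟩
    rw [map_smul, ← adjψ, hx, smul_eq_mul, inv_mul_cancel₀ hy]
  -- transvections
  let S : Set (Module.End K (n → K)) := {T | φm.symm T ∈ G}
  have hSt : ∀ i, ∀ a b : n → K, (φm (e i)) a = a → (φm (e (σ i))) b = b → bil E a b = 0 →
      1 + rr (bil E) a b ∈ S := by
    intro i a b ha hb' hab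
    change φm.symm (1 + rr (bil E) a b) ∈ G
    rw [map_add, map_one]
    by_cases ha0 : a = 0
    · have : rr (bil E) a b = 0 := by
        rw [ha0]; ext; simp [rr]
      rw [this, map_zero, add_zero]
      exact hone
    by_cases hb0 : b = 0
    · have : rr (bil E) a b = 0 := by
        rw [hb0]; ext; simp [rr]
      rw [this, map_zero, add_zero]
      exact hone
    obtain ⟨v, hv, hbv⟩ := dual (σ i) b hb' hb0
    rw [inv] at hv
    obtain ⟨c₁, hc₁, hac₁⟩ := dual i a ha ha0
    obtain ⟨c, hc⟩ : ∃ c, c = -c₁ - (bil E (-c₁) v) • b := ⟨_, rfl⟩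
    have hca : bil E c a = 1 := by
      rw [hc, map_sub, map_neg, map_smul, LinearMap.sub_apply, LinearMap.neg_apply, LinearMap.smul_apply,
        skew b a, hab, skew c₁ a, hac₁]
      simp
    have hcv : bil E c v = 0 := by
      rw [hc, map_sub, map_smul, LinearMap.sub_apply, LinearMap.smul_apply, hbv]
      simp
    have hcσ : (φm (e (σ i))) c = c := by
      rw [hc, map_sub, map_neg, map_smul, hc₁, hb']
    obtain ⟨T, hT⟩ : ∃ T, T = rr (bil E) a b := ⟨_, rfl⟩
    obtain ⟨T', hT'⟩ : ∃ T', T' = rr (bil E) v c := ⟨_, rfl⟩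
    obtain ⟨H, hH⟩ : ∃ H, H = T * T' - T' * T := ⟨_, rfl⟩
    have hTg : T ∈ g := by rw [hT]; exact hlie i a b ha hb' hab
    have hvc : bil E v c = 0 := by rw [skew, hcv, neg_zero]
    have hT'g : T' ∈ g := by rw [hT']; exact hlie i v c hv hcσ hvc
    have hHg : H ∈ g := by rw [hH]; exact hbr T hTg T' hT'g
    have hbr2 : H * T - T * H = (2 : K) • T := by
      rw [hT]
      apply rr_br alt skew hab hvc hbv hca (iso i a v ha hv) (iso (σ i) b c hb' hcσ)
      rw [hH, hT, hT']
    have hTl : φm.symm T ∈ lieOf G := by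
      have h1 := hb H hHg T hTg
      rw [hbr2, map_smul] at h1
      have h2 := (lieOf G).smul_mem (1 / 2 : K) h1
      rw [smul_smul] at h2
      norm_num at h2
      exact h2
    have hTT : φm.symm T * φm.symm T = 0 := by
      rw [← map_mul, hT, rr_sq alt skew hab, map_zero]
    rw [← hT]
    have e3 : (1 : Matrix n n K) + φm.symm T = 1 + (1 : K) • φm.symm T := by rw [one_smul]
    rw [e3]
    apply hcl
    · have h1 : (1 + (1 : K) • φm.symm T) * (1 - (1 : K) • φm.symm T) = 1 := by
        rw [one_smul, mul_sub, mul_one, add_mul, one_mul, hTT, add_zero, add_sub_cancel_right]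
      have h2 := congrArg det h1
      rw [det_mul, det_one] at h2
      exact IsUnit.of_mul_eq_one _ h2
    · intro p hp
      exact exp_mem hone hTT hTl 1 p hp
  have hSm : ∀ a ∈ S, ∀ b ∈ S, a * b ∈ S := by
    intro a ha b hb
    change φm.symm (a * b) ∈ G
    rw [map_mul]
    exact hmul _ ha _ hb
  have hS1 : (1 : Module.End K (n → K)) ∈ S := by
    change φm.symm 1 ∈ G
    rw [map_one]; exact hone
  have h1 : φm X ∈ S := by
    apply hSpG K (n → K) ι (bil E) (fun i => φm (e i)) σ nψ skew ?_ ?_ ?_ inv nfix adjψ S hSm hS1 hSt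
    · intro u v
      rw [φm_apply, φm_apply, bil_mul, hXE]
    · exact φcomm X hXe
    · intro i
      change LinearMap.det (φm X * φm (e i) + (1 - φm (e i))) = 1
      rw [← map_one (φm (K := K) (n := n)), ← map_mul, ← map_sub, ← map_add]
      have := LinearMap.det_toLin' (X * e i + (1 - e i))
      rw [hXd] at this
      exact this
    · intro i; change φm _ * φm _ = φm _; rw [← map_mul, idem]
    · intro i j hij; change φm _ * φm _ = 0; rw [← map_mul, orth i j hij, map_zero]
    · change ∑ i, φm (e i) = 1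
      rw [← map_sum, hsum, map_one]
  change φm.symm (φm X) ∈ G at h1
  rwa [AlgEquiv.symm_apply_apply] at h1

end Pool.Agent.MT4
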