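import Pool.Agent.Helper78_MT.Assembly3
import Pool.Agent.Helper79_MT4.Group
import Pool.Agent.Helper79_MT4.Defs4

/-! The Mumford-Tate group in the presence of an element of rank one over a CM algebra. -/

set_option autoImplicit false
set_option linter.unusedSectionVars false
set_option linter.unusedSimpArgs false

namespace Pool.Agent.MT4

open MvPolynomial Matrix Module Pool.Agent.Helper78_MT

universe u v w

section alg
variable {K A : Type*} [Field K] [Ring A] [Algebra K A] {r : ℕ}

/-- the idempotents of a product of copies of the field -/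
def ev (f : ((Fin r → K) × (Fin r → K)) →ₐ[K] A) : Fin r ⊕ Fin r → A
  | Sum.inl k => f (Pi.single k 1, 0)
  | Sum.inr k => f (0, Pi.single k 1)

/-- the coordinates -/
def co (z : (Fin r → K) × (Fin r → K)) : Fin r ⊕ Fin r → K
  | Sum.inl k => z.1 k
  | Sum.inr k => z.2 k

theorem ev_idem (f : ((Fin r → K) × (Fin r → K)) →ₐ[K] A) (i) : ev f i * ev f i = ev f i := by
  rcases i with k | k
  · change f _ * f _ = f _
    rw [← map_mul, Prod.mk_mul_mk, ← Pi.single_mul, mul_one, mul_zero]
  · change f _ * f _ = f _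
    rw [← map_mul, Prod.mk_mul_mk, ← Pi.single_mul, mul_one, mul_zero]

theorem ev_orth (f : ((Fin r → K) × (Fin r → K)) →ₐ[K] A) (i j) (hij : i ≠ j) :
    ev f i * ev f j = 0 := by
  have hs : ∀ k l : Fin r, k ≠ l → (Pi.single k 1 : Fin r → K) * Pi.single l 1 = 0 := by
    intro k l hkl
    ext m
    rw [Pi.mul_apply, Pi.zero_apply]
    by_cases h : m = k
    · subst h; rw [Pi.single_eq_of_ne hkl, mul_zero]
    · rw [Pi.single_eq_of_ne h, zero_mul]
  rcases i with k | k <;> rcases j with l | l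
  · change f _ * f _ = 0
    rw [← map_mul, Prod.mk_mul_mk, hs k l (fun h => hij (by rw [h])), mul_zero]
    exact map_zero f
  · change f _ * f _ = 0
    rw [← map_mul, Prod.mk_mul_mk, mul_zero, zero_mul]
    exact map_zero f
  · change f _ * f _ = 0
    rw [← map_mul, Prod.mk_mul_mk, mul_zero, zero_mul]
    exact map_zero f
  · change f _ * f _ = 0
    rw [← map_mul, Prod.mk_mul_mk, hs k l (fun h => hij (by rw [h])), mul_zero]
    exact map_zero f

theorem ev_span (f : ((Fin r → K) × (Fin r → K)) →ₐ[K] A) (z) : f z = ∑ i, co z i • ev f i := by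
  rw [Fintype.sum_sum_type]
  have h1 : z = ∑ k, z.1 k • ((Pi.single k 1, 0) : (Fin r → K) × (Fin r → K)) +
      ∑ k, z.2 k • ((0, Pi.single k 1) : (Fin r → K) × (Fin r → K)) := by
    ext m
    · rw [Prod.fst_add, Pi.add_apply, Prod.fst_sum, Prod.fst_sum, Finset.sum_apply, Finset.sum_apply,
        Finset.sum_eq_single m]
      · simp
      · intro b _ hb
        simp [Pi.single_eq_of_ne (Ne.symm hb)]
      · intro h; exact absurd (Finset.mem_univ m) h
    · rw [Prod.snd_add, Pi.add_apply, Prod.snd_sum, Prod.snd_sum, Finset.sum_apply, Finset.sum_apply]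
      rw [Finset.sum_eq_zero (s := Finset.univ) (fun x _ => by simp), zero_add, Finset.sum_eq_single m]
      · simp
      · intro b _ hb
        simp [Pi.single_eq_of_ne (Ne.symm hb)]
      · intro h; exact absurd (Finset.mem_univ m) h
  conv_lhs => rw [h1]
  rw [map_add, map_sum, map_sum]
  simp only [map_smul]
  rfl

theorem ev_sum (f : ((Fin r → K) × (Fin r → K)) →ₐ[K] A) : ∑ i, ev f i = 1 := by
  have h := ev_span f 1
  rw [map_one] at h
  rw [h]
  apply Finset.sum_congr rfl
  intro i _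
  rcases i with k | k
  · change _ = (1 : K) • _
    rw [one_smul]
  · change _ = (1 : K) • _
    rw [one_smul]

theorem ev_ne (f : ((Fin r → K) × (Fin r → K)) →ₐ[K] A) (hf : Function.Injective f) (i) :
    ev f i ≠ 0 := by
  intro h
  rcases i with k | k
  · have h1 : ((Pi.single k 1, 0) : (Fin r → K) × (Fin r → K)) = 0 := hf (by rw [map_zero]; exact h)
    have h2 : (Pi.single k (1 : K) : Fin r → K) k = 0 := congrFun (congrArg Prod.fst h1) k
    rw [Pi.single_eq_same] at h2
    exact one_ne_zero h2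
  · have h1 : ((0, Pi.single k 1) : (Fin r → K) × (Fin r → K)) = 0 := hf (by rw [map_zero]; exact h)
    have h2 : (Pi.single k (1 : K) : Fin r → K) k = 0 := congrFun (congrArg Prod.snd h1) k
    rw [Pi.single_eq_same] at h2
    exact one_ne_zero h2

theorem ev_corner (f : ((Fin r → K) × (Fin r → K)) →ₐ[K] A) (z) (i) :
    ev f i * f z * ev f i = co z i • ev f i := by
  rw [ev_span f z, Finset.mul_sum, Finset.sum_mul, Finset.sum_eq_single i]
  · rw [mul_smul_comm, smul_mul_assoc, ev_idem, ev_idem]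
  · intro j _ hj
    rw [mul_smul_comm, smul_mul_assoc, ev_orth f i j (Ne.symm hj), zero_mul, smul_zero]
  · intro h; exact absurd (Finset.mem_univ i) h

end alg

variable {n : Type v} [Fintype n] [DecidableEq n]

theorem block_det_mul {K : Type*} [Field K] {X Y e : Matrix n n K} (he : e * e = e)
    (hY : Y * e = e * Y) : (X * e + (1 - e)) * (Y * e + (1 - e)) = X * Y * e + (1 - e) := by
  have h1 : X * e * (Y * e) = X * Y * e := by
    rw [hY, mul_assoc X e, ← mul_assoc e e Y, he, ← hY, ← mul_assoc]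
  have h2 : X * e * (1 - e) = 0 := by rw [mul_sub, mul_one, mul_assoc, he, sub_self]
  have h3 : (1 - e) * (Y * e) = 0 := by
    rw [hY, sub_mul, one_mul, ← mul_assoc, he, sub_self]
  have h4 : (1 - e) * (1 - e) = 1 - e := by
    rw [sub_mul, one_mul, mul_sub, mul_one, he]; abel
  rw [add_mul, mul_add, mul_add, h1, h2, h3, h4]; abel

theorem main4 (hLie : LieStmt.{u, max u v, 0}) (hSpG : SpGenStmt.{u, max u v, 0})
    {Γ R : Type*} {K : Type u} [Group Γ] [Field R] [CharZero R] [Field K] [CharZero K]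
    [IsAlgClosed K] [Algebra R K] {E : Matrix n n ℚ} {J : Matrix n n ℝ}
    {D : Subalgebra ℚ (Matrix n n ℚ)} (hA : PolarizedBy E J D) (hD : UnitaryType E D K)
    (ρ : Γ →* GL n R) (hρ : MotivicCM E J D ρ K) (toric : MinimalToricRank D ρ K) :
    monodromy ρ K = mumfordTate J K ∧
      ∀ X : Matrix n n K, Xᵀ * E.map (algebraMap ℚ K) * X = E.map (algebraMap ℚ K) →
        X ∈ centralizer D K → (∀ e, Primitive D e → (X * e + (1 - e)).det = 1) →
          X ∈ monodromy ρ K := by
  classical
  obtain ⟨hE, hdet, hJ, hJE, hJφ⟩ := hA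
  obtain ⟨⟨Γ₀, hΓ₀, hdel⟩, faltings, cochars, abelian⟩ := hρ
  obtain ⟨r, f, hfi, hfr, hfadj⟩ := hD
  obtain ⟨γ, hγ2, hγr⟩ := toric
  have h1 : monodromy ρ K ⊆ mumfordTate J K := deligne_le hdel hΓ₀
  have h2 : mumfordTate J K ⊆ similitudes E K := mt_le hJ hJE K
  have h2' : mumfordTate J K ⊆ centralizer D K := mt_comm hJ hJφ K
  obtain ⟨Γ₁, hΓ₁, hG⟩ := exists_min (K := K) ρ
  obtain ⟨E', hE'⟩ : ∃ E', E' = E.map (algebraMap ℚ K) := ⟨_, rfl⟩
  have hsub : imK ρ K Γ₁ ⊆ monodromy ρ K := by
    rw [hG]; exact subset_zcl (imK_unit ρ Γ₁)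
  have hmem : ∀ z, f z ∈ extension D K := by
    intro z
    rw [← hfr]
    exact ⟨z, rfl⟩
  have hevmem : ∀ i, ev f i ∈ extension D K := by
    intro i
    rcases i with k | k
    · exact hmem _
    · exact hmem _
  have hprim : ∀ i, Primitive D (ev f i) := by
    intro i
    refine ⟨hevmem i, ev_ne f hfi i, ev_idem f i, ?_⟩
    intro X hX
    rw [← hfr] at hX
    obtain ⟨z, rfl⟩ := hX
    exact ⟨co z i, ev_corner f z i⟩
  have hcx : ∀ Z : Matrix n n K, Z ∈ centralizer D K → ∀ X ∈ extension D K, Z * X = X * Z := by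
    intro Z hZ X hX
    unfold extension at hX
    induction hX using Submodule.span_induction with
    | mem x hx =>
      obtain ⟨δ, hδ, rfl⟩ := hx
      exact hZ δ hδ
    | zero => rw [mul_zero, zero_mul]
    | add x y _ _ hx hy => rw [mul_add, add_mul, hx, hy]
    | smul a x _ hx => rw [mul_smul_comm, smul_mul_assoc, hx]
  have hec : ∀ Z : Matrix n n K, (∀ i, Z * ev f i = ev f i * Z) → Z ∈ centralizer D K := by
    intro Z hZ δ hδ
    have h4 : δ.map (algebraMap ℚ K) ∈ LinearMap.range f.toLinearMap := by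
      rw [hfr]
      exact Submodule.subset_span ⟨δ, hδ, rfl⟩
    obtain ⟨z, hz⟩ := h4
    rw [← hz]
    change Z * f z = f z * Z
    rw [ev_span f z, Finset.mul_sum, Finset.sum_mul]
    apply Finset.sum_congr rfl
    intro i _
    rw [mul_smul_comm, smul_mul_assoc, hZ i]
  have hce : ∀ Z : Matrix n n K, Z ∈ centralizer D K → ∀ i, Z * ev f i = ev f i * Z :=
    fun Z hZ i => hcx Z hZ _ (hevmem i)
  have hEdet : IsUnit E'.det := by
    have h4 : IsUnit E.det := IsUnit.mk0 _ hdet
    have h5 := h4.map (algebraMap ℚ K)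
    rw [RingHom.map_det, RingHom.mapMatrix_apply] at h5
    rw [hE']; exact h5
  have hEskew : E'ᵀ = -E' := by
    rw [hE', ← transpose_map, hE]
    ext; simp
  have hone : (1 : Matrix n n K) ∈ monodromy ρ K := hsub (imK_one ρ Γ₁)
  have hmul : ∀ a ∈ monodromy ρ K, ∀ b ∈ monodromy ρ K, a * b ∈ monodromy ρ K := by
    rw [hG]
    intro a ha b hb
    exact zcl_mul (imK_mul ρ Γ₁) ha hb
  -- unipotents
  have hunip : ((ρ γ : Matrix n n R) - 1).map (algebraMap R K) * ((ρ γ : Matrix n n R) - 1).map (algebraMap R K) = 0 ∧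
      ∀ t : K, 1 + t • ((ρ γ : Matrix n n R) - 1).map (algebraMap R K) ∈ monodromy ρ K := by
    obtain ⟨N₀, hN₀⟩ : ∃ N₀, N₀ = (ρ γ : Matrix n n R) - 1 := ⟨_, rfl⟩
    rw [← hN₀] at hγ2 ⊢
    obtain ⟨N, hN⟩ : ∃ N, N = N₀.map (algebraMap R K) := ⟨_, rfl⟩
    rw [← hN]
    have hNN : N * N = 0 := by
      rw [hN, ← Matrix.map_mul, ← pow_two, hγ2]; ext; simp
    have hpow : ∀ k : ℕ, ((ρ (γ ^ k) : GL n R) : Matrix n n R).map (algebraMap R K) =
        1 + (k : K) • N := by
      intro k
      have e1 : (ρ γ : Matrix n n R).map (algebraMap R K) = 1 + N := by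
        have : (ρ γ : Matrix n n R) = 1 + N₀ := by rw [hN₀]; abel
        rw [this, Matrix.map_add _ (map_add _), Matrix.map_one _ (map_zero _) (map_one _), hN]
      induction k with
      | zero =>
        rw [pow_zero, map_one, Units.val_one, Matrix.map_one _ (map_zero _) (map_one _)]; simp
      | succ k ih =>
        rw [pow_succ, map_mul, Units.val_mul, Matrix.map_mul, ih, e1, mul_add, mul_one, add_mul, one_mul,
          smul_mul_assoc, hNN]
        push_cast
        module
    refine ⟨hNN, ?_⟩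
    intro t
    rw [hG]
    refine ⟨?_, ?_⟩
    · have h1 : (1 + t • N) * (1 - t • N) = 1 := by
        rw [mul_sub, mul_one, add_mul, one_mul, smul_mul_smul_comm, hNN, smul_zero, add_zero,
          add_sub_cancel_right]
      have h2 := congrArg det h1
      rw [det_mul, det_one] at h2
      exact IsUnit.of_mul_eq_one _ h2
    · intro p hp
      obtain ⟨m, hm, -, hmΓ⟩ := Subgroup.exists_pow_mem_of_index_ne_zero hΓ₁.index_ne_zero γ
      have h4 : cev (lin 1 N) p = 0 := by
        apply Polynomial.eq_zero_of_infinite_isRoot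
        apply Set.infinite_of_injective_forall_mem (f := fun k : ℕ => ((m * k : ℕ) : K))
        · intro a b hab
          have := Nat.cast_injective hab
          exact Nat.eq_of_mul_eq_mul_left hm this
        · intro k
          change Polynomial.eval _ _ = 0
          rw [cev_eval, lin_eval, ← hpow]
          apply hp
          refine ⟨γ ^ (m * k), ?_, rfl⟩
          rw [pow_mul]
          exact Γ₁.pow_mem hmΓ k
      rw [← lin_eval, ← cev_eval, h4, Polynomial.eval_zero]
  have hspan : ∀ X : Matrix n n K, X ∈ centralizer D K → X ∈ Submodule.span K (monodromy ρ K) := by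
    intro X hX
    have e1 : ∀ B : Matrix n n R, B ∈ centralizer D R →
        B.map (algebraMap R K) ∈ Submodule.span K (monodromy ρ K) := by
      intro B hB
      have hB' : B ∈ Submodule.span R {X : Matrix n n R | ∃ γ ∈ Γ₁, X = (ρ γ : Matrix n n R)} :=
        faltings Γ₁ hΓ₁ B hB
      clear hB
      induction hB' using Submodule.span_induction with
      | mem x hx =>
        obtain ⟨δ, hδ, rfl⟩ := hx
        exact Submodule.subset_span (hsub ⟨δ, hδ, rfl⟩)
      | zero =>
        have : (0 : Matrix n n R).map (algebraMap R K) = 0 := by ext; simp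
        rw [this]; exact Submodule.zero_mem _
      | add x y _ _ hx hy =>
        rw [Matrix.map_add _ (map_add _)]; exact Submodule.add_mem _ hx hy
      | smul a x _ hx =>
        have : (a • x).map (algebraMap R K) = algebraMap R K a • x.map (algebraMap R K) := by
          ext i j; simp
        rw [this]; exact Submodule.smul_mem _ _ hx
    have e2 := comm_basechange (R := R) (C := (D : Set (Matrix n n ℚ))) (X := X) hX
    refine Submodule.span_le.mpr ?_ e2
    rintro _ ⟨Y, hY, rfl⟩
    exact e1 Y hY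
  have hSU : ∀ X : Matrix n n K, Xᵀ * E' * X = E' → X ∈ centralizer D K →
      (∀ e, Primitive D e → (X * e + (1 - e)).det = 1) → X ∈ monodromy ρ K := by
    intro X hXE hXc hXd
    apply group4 (G := monodromy ρ K) (e := ev f) (σ := Sum.swap) hLie hSpG hEdet hEskew (ev_idem f)
      (ev_orth f) (ev_sum f) ?_ (fun i => by rcases i with k | k <;> rfl)
      (fun i => by rcases i with k | k <;> simp) hone hmul ?_ ?_
      (fun g hg => hce g (h2' (h1 hg))) ?_ (fun X hX => hspan X (hec X hX)) hunip.1 hunip.2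
      (fun i => hγr _ (hprim i)) hXE (hce X hXc) (fun i => hXd _ (hprim i))
    · intro i
      rw [hE']
      rcases i with k | k
      · exact hfadj _ _
      · exact hfadj _ _
    · intro M hM hMp
      rw [hG]
      refine ⟨hM, ?_⟩
      intro p hp
      apply hMp
      intro g hg
      rw [hG] at hg
      exact hg.2 p hp
    · intro g hg
      have := (h2 (h1 hg)).2
      rw [← hE'] at this
      exact this
    · intro p hp
      apply cochars p
      intro s hs
      apply hp
      refine Submonoid.closure_mono ?_ hs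
      rintro X ⟨P, t, hP, ht, hnd, rfl⟩
      exact ⟨P, t, hP, ht, fun i => hnd _ (hprim i), rfl⟩
  refine ⟨Set.eq_of_subset_of_subset h1 ?_, fun X hX => hSU X (by rw [hE']; exact hX)⟩
  intro X hX
  obtain ⟨Y, hY, ⟨c, hXc, hYc⟩, hXY⟩ := abelian X hX
  rw [← hE'] at hXc hYc
  have hYmt := h1 hY
  have hYu : IsUnit Y.det := by
    rw [hG] at hY
    exact hY.1
  have hYY : Y * Y⁻¹ = 1 := mul_nonsing_inv Y hYu
  have hYY' : Y⁻¹ * Y = 1 := nonsing_inv_mul Y hYu
  have hYcen := h2' hYmt
  have hXcen := h2' hX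
  have hYicen : Y⁻¹ ∈ centralizer D K := by
    intro A hA
    calc Y⁻¹ * A.map (algebraMap ℚ K)
        = Y⁻¹ * (A.map (algebraMap ℚ K) * Y) * Y⁻¹ := by
          rw [mul_assoc, mul_assoc, hYY, mul_one]
      _ = Y⁻¹ * (Y * A.map (algebraMap ℚ K)) * Y⁻¹ := by rw [hYcen A hA]
      _ = A.map (algebraMap ℚ K) * Y⁻¹ := by rw [← mul_assoc Y⁻¹, hYY', one_mul]
  have hZcen : Y⁻¹ * X ∈ centralizer D K := by
    intro A hA
    rw [mul_assoc, hXcen A hA, ← mul_assoc, hYicen A hA, mul_assoc]
  have hYt : (Y⁻¹)ᵀ * Yᵀ = 1 := by rw [← transpose_mul, hYY, transpose_one]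
  have hEY : E' = c • ((Y⁻¹)ᵀ * E' * Y⁻¹) := by
    calc E' = ((Y⁻¹)ᵀ * Yᵀ) * E' * (Y * Y⁻¹) := by rw [hYY, hYt, one_mul, mul_one]
      _ = (Y⁻¹)ᵀ * (Yᵀ * E' * Y) * Y⁻¹ := by simp only [mul_assoc]
      _ = _ := by rw [hYc, mul_smul_comm, smul_mul_assoc]
  have hZE : (Y⁻¹ * X)ᵀ * E' * (Y⁻¹ * X) = E' := by
    have e1 : (Y⁻¹ * X)ᵀ * E' * (Y⁻¹ * X) = Xᵀ * ((Y⁻¹)ᵀ * E' * Y⁻¹) * X := by
      rw [transpose_mul]; simp only [mul_assoc]
    by_cases hc : c = 0
    · have hE0 : E' = 0 := by rw [hEY, hc, zero_smul]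
      rw [hE0]; simp
    · have e2 : (Y⁻¹)ᵀ * E' * Y⁻¹ = c⁻¹ • E' := by
        conv_rhs => rw [hEY]
        rw [smul_smul, inv_mul_cancel₀ hc, one_smul]
      rw [e1, e2, mul_smul_comm, smul_mul_assoc, hXc, smul_smul, inv_mul_cancel₀ hc, one_smul]
  have hZd : ∀ e, Primitive D e → (Y⁻¹ * X * e + (1 - e)).det = 1 := by
    intro e he
    have hee := he.2.2.1
    have hYe : Y * e = e * Y := hcx Y hYcen e he.1
    have hYie : Y⁻¹ * e = e * Y⁻¹ := hcx _ hYicen e he.1
    have hXe : X * e = e * X := hcx X hXcen e he.1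
    have k1 : (Y * e + (1 - e)) * (Y⁻¹ * e + (1 - e)) = 1 := by
      rw [block_det_mul hee hYie, hYY, one_mul]; abel
    have k2 := congrArg det k1
    rw [det_mul, det_one] at k2
    have k3 : (Y⁻¹ * e + (1 - e)) * (X * e + (1 - e)) = Y⁻¹ * X * e + (1 - e) :=
      block_det_mul hee hXe
    rw [← k3, det_mul, hXY e he, mul_comm]
    exact k2
  have hZ := hSU (Y⁻¹ * X) hZE hZcen hZd
  have : X = Y * (Y⁻¹ * X) := by rw [← mul_assoc, hYY, one_mul]
  rw [this]
  exact hmul _ hY _ hZ

end Pool.Agent.MT4
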