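import Pool.Agent.Helper79_MT4.Mid
import Pool.Agent.Helper79_MT4.CurGrp
import Pool.Agent.Helper48_MT4.Bas
import Pool.Agent.Helper14_MT4.SlGen
import Pool.Agent.Helper81_MT4.Spgen

/-! Assembly of the squad MT4. -/

set_option autoImplicit false

namespace Pool.Agent.MT4

open Module Matrix Pool.Agent.Helper78_MT

universe u v w

theorem lieThm : LieStmt.{u, v, w} :=
  lieOf cur grp (fun orb _ irr rk => H48.bas cur grp orb irr rk)

theorem spgenThm : SpGenStmt.{u, v, w} := H81.spgen H14.slgen

theorem main {n : Type v} [Fintype n] [DecidableEq n]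
    {Γ R : Type*} {K : Type u} [Group Γ] [Field R] [CharZero R] [Field K] [CharZero K]
    [IsAlgClosed K] [Algebra R K] {E : Matrix n n ℚ} {J : Matrix n n ℝ}
    {D : Subalgebra ℚ (Matrix n n ℚ)} (hA : PolarizedBy E J D) (hD : UnitaryType E D K)
    (ρ : Γ →* GL n R) (hρ : MotivicCM E J D ρ K) (toric : MinimalToricRank D ρ K) :
    monodromy ρ K = mumfordTate J K ∧
      ∀ X : Matrix n n K, Xᵀ * E.map (algebraMap ℚ K) * X = E.map (algebraMap ℚ K) →
        X ∈ centralizer D K → (∀ e, Primitive D e → (X * e + (1 - e)).det = 1) →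
          X ∈ monodromy ρ K :=
  main4 lieThm spgenThm hA hD ρ hρ toric

end Pool.Agent.MT4
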