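import Pool.Agent.Helper79_MT4.Final
import Pool.Agent.Helper6_MT4.Adj
import Pool.Agent.Helper6_MT4.Sep
import Pool.Agent.Helper7_MT4.Gr2
import Pool.Agent.Helper7_MT4.Sl2
import Pool.Agent.Helper7_MT4.Lie
import Pool.Agent.Helper14_MT4.Lam
import Pool.Agent.Helper44_MT4.Orb
import Pool.Agent.Helper44_MT4.Path
import Pool.Agent.Helper26_MT4.Rk
import Pool.Agent.Helper26_MT4.Sl3
import Pool.Agent.Helper81_MT4.Sign
import Pool.Agent.Helper81_MT4.Sl1
import Pool.Agent.Helper48_MT4.Irr
import Pool.Agent.Helper5_MT4.Words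
import Pool.Agent.Helper5_MT4.Gr1

namespace Pool.Agent.MT4

universe u v w

theorem lieOf (cur : CurStmt.{u, v}) (grp : GrpStmt.{u, v, w})
    (basOf : OrbStmt.{u, v, w} → PathStmt.{u, v, w} → IrrStmt.{u, v, w} → RkStmt.{u, v} →
      BasStmt.{u, v, w}) : LieStmt.{u, v, w} := by
  have orb : OrbStmt.{u, v, w} := H44.orb grp
  have path : PathStmt.{u, v, w} := H44.path cur grp
  have irr : IrrStmt.{u, v, w} := H48.irr cur path grp
  have rk : RkStmt.{u, v} := H26.rk
  have bas : BasStmt.{u, v, w} := basOf orb path irr rk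
  have words : WordsStmt.{u, v, w} := H5.words orb cur irr rk bas
  have gr1 : Gr1Stmt.{u, v, w} := H5.gr1 orb rk bas
  have gr2 : Gr2Stmt.{u, v, w} := H7.gr2 grp orb bas
  have sign : SignStmt.{u, v, w} := H81.sign cur orb irr rk
  have adj : AdjStmt.{u, v, w} := H6.adj
  have sep : SepStmt.{u, v, w} := H6.sep grp orb adj sign words gr1 gr2
  have gam : GamStmt.{u, v, w} := H6.gam cur orb irr bas adj words gr1 gr2
  have lam : LamStmt.{u, v, w} := H14.lam grp rk sep
  exact H7.lie cur orb grp irr rk bas gam lam H81.sl1 H7.sl2 H26.sl3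

end Pool.Agent.MT4
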