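import Pool.Agent.Helper79_MT4.Main

/-!
The Mumford-Tate conjecture in degree one, for abelian varieties with complex multiplication by a CM
field (of any degree and with any signature) which have a semistable place of minimal toric rank.
-/

set_option autoImplicit false

namespace Pool.Agent.Helper79_MT4.MinimalToricRankCM

open Matrix Pool.Agent.Helper78_MT Pool.Agent.MT4

universe u w x

/-- Let `E` be a rational symplectic form, `J` a complex structure on the real space compatible with
it, `D` an algebra of rational matrices commuting with `J`, which over `K` is a product of copies of `K`
interchanged in pairs by the adjunction (for example a CM field with the Rosati involution).  Let `ρ` be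
a representation over `ℚ_ℓ` of a group `Γ`, such that (Deligne) a subgroup of finite index maps into
the Mumford-Tate group of `J`; (Faltings) the image of every subgroup of finite index spans all matrices
commuting with `D`; (Serre, Sen, Pink) the connected monodromy group is generated by cocharacters of
weights zero and one, which are trivial on the image of no primitive idempotent of `D`; (Pohlmann,
Serre, Deligne) the monodromy group and the Mumford-Tate group have the same abelian parts; and some
`N = ρ γ - 1` of square zero is of rank one on the image of every primitive idempotent.  Then the
connected monodromy group is the Mumford-Tate group, and it contains all symplectic matrices which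
commute with `D` and are of determinant one on the image of every primitive idempotent. -/
theorem result (K : Type u) [Field K] [CharZero K] [IsAlgClosed K] (n : Type w) [Fintype n]
    [DecidableEq n] (Γ : Type x) [Group Γ] (ℓ : ℕ) [Fact ℓ.Prime] [Algebra ℚ_[ℓ] K]
    (E : Matrix n n ℚ) (J : Matrix n n ℝ) (D : Subalgebra ℚ (Matrix n n ℚ)) (ρ : Γ →* GL n ℚ_[ℓ])
    (hJ : PolarizedBy E J D) (hD : UnitaryType E D K) (hρ : MotivicCM E J D ρ K)
    (htor : MinimalToricRank D ρ K) :
    monodromy ρ K = mumfordTate J K ∧
      ∀ X : Matrix n n K, Xᵀ * E.map (algebraMap ℚ K) * X = E.map (algebraMap ℚ K) →
        X ∈ centralizer D K → (∀ e, Primitive D e → (X * e + (1 - e)).det = 1) →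
          X ∈ monodromy ρ K :=
  main hJ hD ρ hρ htor

end Pool.Agent.Helper79_MT4.MinimalToricRankCM
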